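import Mathlib

/-!
Newton's identities for endomorphisms: rational traces of powers determine one rational
characteristic polynomial, valid over every coefficient field of characteristic zero.
-/

open Polynomial Module

namespace Pool.Agent.P.MP_898f40_nt

/-- Elementary symmetric functions computed from power sums by Newton's recursion. -/
noncomputable def esQ (t : ℕ → ℚ) : ℕ → ℚ
  | 0 => 1
  | (k + 1) => (-1) ^ k / (k + 1) * ∑ i : Fin (k + 1), (-1) ^ (i : ℕ) * esQ t i * t (k + 1 - i)
decreasing_by exact i.2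

/-- The rational polynomial with power sums `t` (degree `t 0`). -/
noncomputable def charQ (t : ℕ → ℚ) : ℚ[X] :=
  ∑ j ∈ Finset.range (⌊t 0⌋₊ + 1), monomial j ((-1) ^ (⌊t 0⌋₊ - j) * esQ t (⌊t 0⌋₊ - j))

theorem multiset_newton {L : Type*} [CommRing L] (s : Multiset L) (k : ℕ) :
    ((k + 1 : ℕ) : L) * s.esymm (k + 1) = (-1) ^ k *
      ∑ i : Fin (k + 1), (-1) ^ (i : ℕ) * s.esymm i * (s.map (· ^ (k + 1 - i))).sum := by
  classical
  have h := congrArg (MvPolynomial.aeval (R := ℤ) (fun x : s.ToType => (x : L)))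
    (MvPolynomial.mul_esymm_eq_sum s.ToType ℤ (k + 1))
  have hp : ∀ n, MvPolynomial.aeval (R := ℤ) (fun x : s.ToType => (x : L))
      (MvPolynomial.psum s.ToType ℤ n) = (s.map (· ^ n)).sum := by
    intro n
    simp only [MvPolynomial.psum, map_sum, map_pow, MvPolynomial.aeval_X]
    conv_rhs => rw [← Multiset.map_univ_coe s, Multiset.map_map]
    rfl
  simp only [map_mul, map_natCast, map_pow, map_neg, map_one, map_sum,
    MvPolynomial.aeval_esymm_eq_multiset_esymm, Multiset.map_univ_coe, hp] at h
  rw [h, Finset.sum_filter, Finset.Nat.sum_antidiagonal_eq_sum_range_succ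
    (fun a b => if a < k + 1 then (-1) ^ a * s.esymm a * (s.map (· ^ b)).sum else 0),
    Finset.sum_range_succ, if_neg (lt_irrefl _), add_zero,
    Finset.sum_range (fun a => if a < k + 1 then
      (-1) ^ a * s.esymm a * (s.map (· ^ (k + 1 - a))).sum else 0)]
  congr 1
  · ring
  · exact Finset.sum_congr rfl fun i _ => if_pos i.2

theorem esymm_eq_esQ {L : Type*} [Field L] [CharZero L] (s : Multiset L) (t : ℕ → ℚ)
    (h : ∀ m, 0 < m → (s.map (· ^ m)).sum = (t m : L)) (k : ℕ) : s.esymm k = (esQ t k : L) := by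
  induction k using Nat.strong_induction_on with
  | _ k ih =>
    cases k with
    | zero => simp [esQ, Multiset.esymm]
    | succ k =>
      have h1 := multiset_newton s k
      have h2 : ((k + 1 : ℕ) : L) ≠ 0 := Nat.cast_ne_zero.2 (Nat.succ_ne_zero k)
      rw [esQ]
      push_cast at h1 h2 ⊢
      rw [div_mul_eq_mul_div, eq_div_iff h2, mul_comm, h1]
      congr 1
      refine Finset.sum_congr rfl fun i _ => ?_
      rw [ih i i.2, h _ (by have := i.2; omega)]

theorem trace_pow_eq_roots {L V : Type*} [Field L] [IsAlgClosed L] [AddCommGroup V] [Module L V]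
    [FiniteDimensional L V] (f : End L V) (n : ℕ) :
    LinearMap.trace L V (f ^ n) = (f.charpoly.roots.map (· ^ n)).sum := by
  classical
  have hds := DirectSum.isInternal_submodule_of_iSupIndep_of_iSup_eq_top
    f.independent_maxGenEigenspace (Module.End.iSup_maxGenEigenspace_eq_top f)
  have hfin : {μ | f.maxGenEigenspace μ ≠ ⊥}.Finite :=
    WellFoundedGT.finite_ne_bot_of_iSupIndep f.independent_maxGenEigenspace
  have hm : ∀ μ, Set.MapsTo f (f.maxGenEigenspace μ) (f.maxGenEigenspace μ) :=
    fun μ => f.mapsTo_maxGenEigenspace_of_comm (Commute.refl _) μ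
  have hn : ∀ μ, Set.MapsTo (f ^ n) (f.maxGenEigenspace μ) (f.maxGenEigenspace μ) :=
    fun μ => f.mapsTo_maxGenEigenspace_of_comm ((Commute.refl f).pow_right n) μ
  have hset : hfin.toFinset = f.charpoly.roots.toFinset := by
    ext μ
    rw [Set.Finite.mem_toFinset, Multiset.mem_toFinset, ← Multiset.one_le_count_iff_mem,
      count_roots, ← LinearMap.finrank_maxGenEigenspace_eq, Set.mem_ofPred_eq,
      Nat.one_le_iff_ne_zero, Ne, Ne, Submodule.finrank_eq_zero]
  rw [LinearMap.trace_eq_sum_trace_restrict' hds hfin hn, Finset.sum_multiset_map_count, hset]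
  refine Finset.sum_congr rfl fun μ _ => ?_
  have hnil := f.isNilpotent_restrict_maxGenEigenspace_sub_algebraMap μ
  have key : ∀ m : ℕ, LinearMap.trace L _ ((f.restrict (hm μ)) ^ m) =
      (Module.finrank L (f.maxGenEigenspace μ) : L) * μ ^ m := by
    intro m
    induction m with
    | zero => simp
    | succ m ih =>
      rw [pow_succ, Module.End.mul_eq_comp,
        LinearMap.trace_comp_eq_mul_of_commute_of_isNilpotent μ
          ((Commute.refl _).pow_left m) hnil, ih]
      ring
  rw [count_roots, ← LinearMap.finrank_maxGenEigenspace_eq, nsmul_eq_mul, ← key n]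
  congr 1
  exact (Module.End.pow_restrict n (hm μ) (hn μ)).symm

theorem charQ_map_closed {L V : Type*} [Field L] [CharZero L] [IsAlgClosed L] [AddCommGroup V]
    [Module L V] [FiniteDimensional L V] (f : End L V) (t : ℕ → ℚ)
    (h : ∀ m, LinearMap.trace L V (f ^ m) = (t m : L)) :
    (charQ t).map (algebraMap ℚ L) = f.charpoly := by
  have h0 : ⌊t 0⌋₊ = finrank L V := by
    have := h 0
    rw [pow_zero, LinearMap.trace_one] at this
    have h1 : t 0 = (finrank L V : ℚ) := by exact_mod_cast this.symm
    rw [h1, Nat.floor_natCast]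
  have hdeg : f.charpoly.natDegree = finrank L V := f.charpoly_natDegree
  ext j
  rw [coeff_map, charQ, finsetSum_coeff, h0]
  simp only [coeff_monomial, Finset.sum_ite_eq', Finset.mem_range]
  split_ifs with hj
  · rw [coeff_eq_esymm_roots_of_splits (IsAlgClosed.splits _) (by omega), hdeg,
      f.charpoly_monic.leadingCoeff, one_mul,
      esymm_eq_esQ _ t (fun m _ => by rw [← trace_pow_eq_roots, h])]
    simp
  · rw [map_zero, coeff_eq_zero_of_natDegree_lt (by omega)]

/-- Rational traces of all powers give one rational characteristic polynomial `charQ t`,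
depending only on the traces. -/
theorem charQ_map {K V : Type*} [Field K] [CharZero K] [AddCommGroup V]
    [Module K V] [FiniteDimensional K V] (f : End K V) (t : ℕ → ℚ)
    (h : ∀ m, LinearMap.trace K V (f ^ m) = (t m : K)) :
    (charQ t).map (algebraMap ℚ K) = f.charpoly := by
  let L := AlgebraicClosure K
  apply Polynomial.map_injective (algebraMap K L) (algebraMap K L).injective
  rw [Polynomial.map_map, ← LinearMap.charpoly_baseChange,
    ← charQ_map_closed (f.baseChange L) t]
  · congr 1
  · intro m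
    rw [← LinearMap.baseChange_pow, LinearMap.trace_baseChange, h]
    simp

theorem charQ_monic {K V : Type*} [Field K] [CharZero K] [AddCommGroup V]
    [Module K V] [FiniteDimensional K V] (f : End K V) (t : ℕ → ℚ)
    (h : ∀ m, LinearMap.trace K V (f ^ m) = (t m : K)) : (charQ t).Monic := by
  have := f.charpoly_monic
  rw [← charQ_map f t h] at this
  exact monic_of_injective (algebraMap ℚ K).injective this

theorem charpoly_of_traces {K V K' V' : Type*} [Field K] [CharZero K] [AddCommGroup V]
    [Module K V] [FiniteDimensional K V] [Field K'] [CharZero K'] [AddCommGroup V']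
    [Module K' V'] [FiniteDimensional K' V'] (f : End K V) (f' : End K' V') (t : ℕ → ℚ)
    (h : ∀ m, LinearMap.trace K V (f ^ m) = (t m : K))
    (h' : ∀ m, LinearMap.trace K' V' (f' ^ m) = (t m : K')) :
    ∃ P : ℚ[X], P.Monic ∧ P.map (algebraMap ℚ K) = f.charpoly ∧
      P.map (algebraMap ℚ K') = f'.charpoly :=
  ⟨charQ t, charQ_monic f t h, charQ_map f t h, charQ_map f' t h'⟩

/-- If `g(f) = 0` then the characteristic polynomial divides a power of `g`. -/
theorem charpoly_dvd_pow {K V : Type*} [Field K] [AddCommGroup V] [Module K V]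
    [FiniteDimensional K V] (f : End K V) (g : K[X]) (hg : aeval f g = 0) :
    f.charpoly ∣ g ^ finrank K V := by
  let L := AlgebraicClosure K
  rw [← map_dvd_map' (algebraMap K L), Polynomial.map_pow, ← LinearMap.charpoly_baseChange]
  have h0 : aeval (f.baseChange L) (g.map (algebraMap K L)) = 0 := by
    rw [aeval_map_algebraMap]
    have := aeval_algHom_apply (Module.End.baseChangeHom K L V) f g
    rw [hg, map_zero] at this
    exact this
  set F := f.baseChange L
  have hs := (IsAlgClosed.splits F.charpoly)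
  have hcard : F.charpoly.roots.card = finrank K V := by
    rw [splits_iff_card_roots.1 hs, F.charpoly_natDegree, Module.finrank_baseChange]
  rw [hs.eq_prod_roots_of_monic F.charpoly_monic, ← hcard, ← Multiset.prod_replicate,
    ← Multiset.map_const']
  refine Multiset.prod_dvd_prod_of_dvd _ _ fun a ha => ?_
  rw [dvd_iff_isRoot]
  have h1 : Module.End.HasEigenvalue F a :=
    (Module.End.hasEigenvalue_iff_isRoot_charpoly F a).2 (isRoot_of_mem_roots ha)
  exact (Module.End.hasEigenvalue_iff_isRoot.1 h1).dvd (minpoly.dvd L F h0)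

/-- Integrality: a rational characteristic polynomial of an endomorphism killed by a power of a
monic integral polynomial has integral coefficients. -/
theorem int_charpoly {K V : Type*} [Field K] [CharZero K] [AddCommGroup V] [Module K V]
    [FiniteDimensional K V] (f : End K V) (P : ℚ[X]) (hP : P.map (algebraMap ℚ K) = f.charpoly)
    (m : ℤ[X]) (hm : m.Monic) (hf : IsNilpotent (aeval f (m.map (algebraMap ℤ K)))) :
    ∃ Q : ℤ[X], Q.Monic ∧ Q.map (algebraMap ℤ ℚ) = P ∧ Q.map (algebraMap ℤ K) = f.charpoly := by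
  obtain ⟨r, hr⟩ := hf
  have hPm : P.Monic := by
    have := f.charpoly_monic
    rw [← hP] at this
    exact monic_of_injective (algebraMap ℚ K).injective this
  have hcomp : (algebraMap ℚ K).comp (algebraMap ℤ ℚ) = algebraMap ℤ K := Subsingleton.elim _ _
  have h1 := charpoly_dvd_pow f ((m.map (algebraMap ℤ K)) ^ r) (by rw [map_pow, hr])
  have h2 : P ∣ ((m ^ r) ^ finrank K V).map (algebraMap ℤ ℚ) := by
    rw [← map_dvd_map' (algebraMap ℚ K), hP, Polynomial.map_map, hcomp, Polynomial.map_pow,
      Polynomial.map_pow]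
    exact h1
  obtain ⟨Q, hQ⟩ := IsIntegrallyClosed.eq_map_mul_C_of_dvd (K := ℚ) ((hm.pow r).pow _) h2
  rw [hPm.leadingCoeff, map_one, mul_one] at hQ
  refine ⟨Q, ?_, hQ, ?_⟩
  · rw [← hQ] at hPm
    exact monic_of_injective (algebraMap ℤ ℚ).injective_int hPm
  · rw [← hP, ← hQ, Polynomial.map_map, hcomp]

/-- Projector attached to a coprime factorisation, valid wherever `P₁ * P₂` vanishes. -/
theorem exists_proj_coprime {R : Type*} [CommRing R] (P₁ P₂ : R[X]) (h : IsCoprime P₁ P₂) :
    ∃ E G : R[X], P₁ * P₂ ∣ E * E - E ∧ P₁ * P₂ ∣ P₁ * E ∧ P₁ * P₂ ∣ P₂ * (1 - E) ∧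
      G * P₁ = 1 - E := by
  obtain ⟨α, β, hαβ⟩ := h
  refine ⟨β * P₂, α, ⟨-(α * β), ?_⟩, ⟨β, by ring⟩, ⟨α, ?_⟩, ?_⟩
  · linear_combination (β * P₂) * hαβ
  · linear_combination (-P₂) * hαβ
  · linear_combination hαβ

/-- Rational Fitting projector onto the generalized `c`-eigenspace: polynomial form. -/
theorem exists_fitting_poly {R : Type*} [Field R] (P : R[X]) (hP : P ≠ 0) (c : R) :
    ∃ E G : R[X], P ∣ E * E - E ∧ P ∣ (X - C c) ^ rootMultiplicity c P * E ∧
      G * (X - C c) = 1 - E := by
  obtain ⟨ν, hν, hdvd⟩ := exists_eq_pow_rootMultiplicity_mul_and_not_dvd P hP c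
  set a := rootMultiplicity c P
  have hcop : IsCoprime ((X - C c) ^ (a + 1)) ν :=
    IsCoprime.pow_left (((irreducible_X_sub_C c).coprime_iff_not_dvd).mpr hdvd)
  obtain ⟨α, β, hαβ⟩ := hcop
  refine ⟨β * ν, α * (X - C c) ^ a, ⟨-(α * β * (X - C c)), ?_⟩, ⟨β, ?_⟩, ?_⟩
  · rw [hν]
    linear_combination (β * ν) * hαβ
  · rw [hν]
    ring
  · linear_combination hαβ

/-- Evaluation of a rational polynomial congruence in an algebra over a field of
characteristic zero. -/
theorem aeval_eq_zero_of_dvd {K A : Type*} [Field K] [CharZero K] [Ring A] [Algebra K A] (x : A)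
    {P Q : ℚ[X]} (hx : aeval x (P.map (algebraMap ℚ K)) = 0) (h : P ∣ Q) :
    aeval x (Q.map (algebraMap ℚ K)) = 0 := by
  obtain ⟨H, rfl⟩ := h
  rw [Polynomial.map_mul, map_mul, hx, zero_mul]

/-- Rational Fitting projector: the same `E`, `G` work in every algebra where `P` vanishes. -/
theorem fitting_aeval {K A : Type*} [Field K] [CharZero K] [Ring A] [Algebra K A] (x : A)
    {P E G : ℚ[X]} {c : ℚ} {a : ℕ} (hx : aeval x (P.map (algebraMap ℚ K)) = 0)
    (h1 : P ∣ E * E - E) (h2 : P ∣ (X - C c) ^ a * E) (h3 : G * (X - C c) = 1 - E) :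
    IsIdempotentElem (aeval x (E.map (algebraMap ℚ K))) ∧
      (x - algebraMap K A c) ^ a * aeval x (E.map (algebraMap ℚ K)) = 0 ∧
      aeval x (G.map (algebraMap ℚ K)) * (x - algebraMap K A c) =
        1 - aeval x (E.map (algebraMap ℚ K)) := by
  refine ⟨?_, ?_, ?_⟩
  · have := aeval_eq_zero_of_dvd x hx h1
    rw [Polynomial.map_sub, Polynomial.map_mul, map_sub, map_mul, sub_eq_zero] at this
    exact this
  · have := aeval_eq_zero_of_dvd x hx h2
    simpa using this
  · have := congrArg (fun p : ℚ[X] => aeval x (p.map (algebraMap ℚ K))) h3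
    simpa using this

end Pool.Agent.P.MP_898f40_nt
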