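import Pool.Agent.P.MP_898f40_nt.OneNewton

/-!
Two representations of one ring with the same rational traces, the trace form being
nondegenerate on the first one: regularity of the first image, nilpotence of the kernel on the
second one, lifting of idempotents, and pairs of subspaces cut out by one pair of idempotents.
-/

section

open Module LinearMap Polynomial

set_option linter.unusedSectionVars false

namespace Pool.Agent.P.MP_898f40_nt.One

variable {K K' V V' : Type*} [Field K] [CharZero K] [Field K'] [CharZero K'] [AddCommGroup V]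
  [Module K V] [FiniteDimensional K V] [AddCommGroup V'] [Module K' V'] [FiniteDimensional K' V']

/-- A ring of pairs of operators with equal rational traces, numerically faithful on the left. -/
structure Pairing (R : Subring (End K V × End K' V')) : Prop where
  rat : ∀ q : ℚ, (((q : K) • 1, (q : K') • 1) : End K V × End K' V') ∈ R
  tr : ∀ x ∈ R, ∃ τ : ℚ, trace K V x.1 = τ ∧ trace K' V' x.2 = τ
  num : ∀ x ∈ R, (∀ y ∈ R, trace K V (x.1 * y.1) = 0) → x.1 = 0

namespace Pairing

variable {R : Subring (End K V × End K' V')} (hR : Pairing R)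
include hR

theorem smul_mem (q : ℚ) {x : End K V × End K' V'} (hx : x ∈ R) :
    (((q : K) • x.1, (q : K') • x.2) : End K V × End K' V') ∈ R := by
  have := R.mul_mem (hR.rat q) hx
  simpa [Prod.mul_def] using this

theorem finrank_eq : finrank K V = finrank K' V' := by
  obtain ⟨τ, h1, h2⟩ := hR.tr 1 R.one_mem
  simp only [Prod.fst_one, Prod.snd_one, trace_one] at h1 h2
  have h3 : (finrank K V : ℚ) = τ := by exact_mod_cast h1
  have h4 : (finrank K' V' : ℚ) = τ := by exact_mod_cast h2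
  exact_mod_cast h3.trans h4.symm

theorem nil {x : End K V × End K' V'} (hx : x ∈ R) (h0 : x.1 = 0) : IsNilpotent x.2 := by
  obtain ⟨P, h1, h2⟩ := newton x.1 x.2 fun m => hR.tr _ (R.pow_mem hx m)
  rw [h0, LinearMap.charpoly_zero] at h1
  have hP : P = X ^ finrank K V := by
    apply Polynomial.map_injective (algebraMap ℚ K) (algebraMap ℚ K).injective
    rw [← h1]
    simp
  refine ⟨finrank K V, ?_⟩
  have := LinearMap.aeval_self_charpoly x.2
  rw [h2, hP] at this
  simpa using this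

theorem key (φ : K →ₗ[ℚ] ℚ) {n : ℕ} (c : Fin n → K) (r : Fin n → End K V × End K' V')
    (hr : ∀ i, r i ∈ R) {y : End K V × End K' V'} (hy : y ∈ R) :
    trace K V ((∑ i, (φ (c i) : K) • (r i).1) * y.1) =
      (φ (trace K V ((∑ i, c i • (r i).1) * y.1)) : K) := by
  choose τ h1 h2 using fun i => hR.tr _ (R.mul_mem (hr i) hy)
  simp only [Prod.fst_mul] at h1
  simp only [Finset.sum_mul, smul_mul_assoc, map_sum, map_smul, h1, smul_eq_mul, Rat.cast_sum]
  refine Finset.sum_congr rfl fun i _ => ?_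
  rw [mul_comm (c i), ← Rat.smul_def (τ i) (c i), map_smul, smul_eq_mul, Rat.cast_mul, mul_comm]

theorem comb_mem (φ : K →ₗ[ℚ] ℚ) {n : ℕ} (c : Fin n → K) (r : Fin n → End K V × End K' V')
    (hr : ∀ i, r i ∈ R) : ∃ s ∈ R, s.1 = ∑ i, (φ (c i) : K) • (r i).1 :=
  ⟨_, R.sum_mem fun i (_ : i ∈ Finset.univ) => hR.smul_mem (φ (c i)) (hr i), by
    simp [Prod.fst_sum]⟩

theorem nondeg {w : End K V}
    (hw : w ∈ Submodule.span K (Prod.fst '' (R : Set (End K V × End K' V'))))
    (h : ∀ y ∈ R, trace K V (w * y.1) = 0) : w = 0 := by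
  classical
  obtain ⟨n, c, g, rfl⟩ := Submodule.mem_span_set'.1 hw
  choose r hr hg using fun i => (g i).2
  simp only [← hg] at h ⊢
  have h1 : ∀ φ : K →ₗ[ℚ] ℚ, ∑ i, (φ (c i) : K) • (r i).1 = 0 := by
    intro φ
    obtain ⟨s, hs, hs'⟩ := hR.comb_mem φ c r hr
    rw [← hs']
    refine hR.num s hs fun y hy => ?_
    rw [hs', hR.key φ c r hr hy, h y hy, map_zero, Rat.cast_zero]
  let b := Module.Basis.ofVectorSpace ℚ K
  let J := Finset.univ.biUnion fun i => (b.repr (c i)).support
  have h2 : ∀ i, c i = ∑ j ∈ J, (b.coord j (c i) : K) * b j := by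
    intro i
    conv_lhs => rw [← b.linearCombination_repr (c i), Finsupp.linearCombination_apply,
      Finsupp.sum_of_support_subset _ (s := J)
        (Finset.subset_biUnion_of_mem (fun i => (b.repr (c i)).support) (Finset.mem_univ i)) _
        (by simp)]
    simp [Rat.smul_def]
  calc ∑ i, c i • (r i).1 = ∑ i, ∑ j ∈ J, b j • ((b.coord j (c i) : K) • (r i).1) := by
        refine Finset.sum_congr rfl fun i _ => ?_
        conv_lhs => rw [h2 i, Finset.sum_smul]
        simp only [mul_comm _ (b _), mul_smul]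
    _ = 0 := by
        rw [Finset.sum_comm]
        simp only [← Finset.smul_sum, h1, smul_zero, Finset.sum_const_zero]

omit hR in
theorem span_mul {a b : End K V}
    (ha : a ∈ Submodule.span K (Prod.fst '' (R : Set (End K V × End K' V'))))
    (hb : b ∈ Submodule.span K (Prod.fst '' (R : Set (End K V × End K' V')))) :
    a * b ∈ Submodule.span K (Prod.fst '' (R : Set (End K V × End K' V'))) := by
  have := Submodule.mul_mem_mul ha hb
  rw [Submodule.span_mul_span] at this
  refine Submodule.span_mono ?_ this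
  rintro _ ⟨_, ⟨x, hx, rfl⟩, _, ⟨y, hy, rfl⟩, rfl⟩
  exact ⟨x * y, R.mul_mem hx hy, rfl⟩

theorem mem_span_mul {x : End K V × End K' V'} (hx : x ∈ R) :
    x.1 ∈ Submodule.span K (Prod.fst '' ((fun z => x * z * x) '' (R : Set _))) := by
  by_contra hn
  obtain ⟨l, hl, hl'⟩ := Submodule.exists_dual_map_eq_bot_of_notMem hn inferInstance
  let B := Submodule.span K (Prod.fst '' (R : Set (End K V × End K' V')))
  let β : LinearMap.BilinForm K B :=
    ((LinearMap.mul K (End K V)).compr₂ (trace K V)).compl₁₂ B.subtype B.subtype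
  have hβ : β.Nondegenerate := by
    refine ⟨fun a ha => Subtype.ext (hR.nondeg a.2 fun y hy => ?_),
      fun a ha => Subtype.ext (hR.nondeg a.2 fun y hy => ?_)⟩
    · exact ha ⟨y.1, Submodule.subset_span ⟨y, hy, rfl⟩⟩
    · rw [trace_mul_comm]
      exact ha ⟨y.1, Submodule.subset_span ⟨y, hy, rfl⟩⟩
  let y := (β.toDual hβ).symm (l ∘ₗ B.subtype)
  have hy : ∀ z ∈ R, trace K V (y.1 * z.1) = l z.1 := fun z hz =>
    LinearMap.BilinForm.apply_toDual_symm_apply (hB := hβ) (l ∘ₗ B.subtype)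
      ⟨z.1, Submodule.subset_span ⟨z, hz, rfl⟩⟩
  have hxB : x.1 ∈ B := Submodule.subset_span ⟨x, hx, rfl⟩
  have h0 : x.1 * y.1 * x.1 = 0 := by
    refine hR.nondeg (span_mul (span_mul hxB y.2) hxB) fun z hz => ?_
    have h1 := hy _ (R.mul_mem (R.mul_mem hx hz) hx)
    have h2 : l (x * z * x).1 = 0 := by
      rw [← Submodule.mem_bot K, ← hl']
      exact Submodule.mem_map_of_mem (Submodule.subset_span ⟨_, ⟨z, hz, rfl⟩, rfl⟩)
    rw [h2] at h1
    rw [← h1, mul_assoc, mul_assoc, trace_mul_comm]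
    simp only [Prod.fst_mul, mul_assoc]
  have h3 : IsNilpotent (y.1 * x.1) := ⟨2, by
    rw [pow_two, mul_assoc, ← mul_assoc x.1, h0, mul_zero]⟩
  exact hl ((hy x hx).symm.trans (isNilpotent_trace_of_isNilpotent h3).eq_zero)

theorem reg {x : End K V × End K' V'} (hx : x ∈ R) : ∃ h ∈ R, x.1 * h.1 * x.1 = x.1 := by
  obtain ⟨n, c, g, hc⟩ := Submodule.mem_span_set'.1 (hR.mem_span_mul hx)
  have : ∀ i, ∃ z ∈ R, (x * z * x).1 = g i := fun i => by
    obtain ⟨_, ⟨z, hz, rfl⟩, h⟩ := (g i).2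
    exact ⟨z, hz, h⟩
  choose z hz hg using this
  simp only [← hg] at hc
  obtain ⟨φ, hφ⟩ := (Algebra.linearMap ℚ K).exists_leftInverse_of_injective
    (LinearMap.ker_eq_bot.2 (algebraMap ℚ K).injective)
  have hφ' : ∀ q : ℚ, φ (q : K) = q := fun q => LinearMap.congr_fun hφ q
  obtain ⟨h, hh, hh'⟩ := hR.comb_mem φ c z hz
  refine ⟨h, hh, ?_⟩
  have h1 := hR.num (x * h * x - x) (R.sub_mem (R.mul_mem (R.mul_mem hx hh) hx) hx) fun y hy => by
    have h2 := hR.key φ c (fun i => x * z i * x)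
      (fun i => R.mul_mem (R.mul_mem hx (hz i)) hx) hy
    obtain ⟨τ, h3, _⟩ := hR.tr _ (R.mul_mem hx hy)
    rw [Prod.fst_mul] at h3
    rw [hc, h3, hφ'] at h2
    rw [Prod.fst_sub, sub_mul, map_sub, h3, ← h2, sub_eq_zero]
    simp only [Prod.fst_mul, hh', Finset.mul_sum, Finset.sum_mul, mul_smul_comm, smul_mul_assoc]
  simpa [sub_eq_zero] using h1

theorem lift {e : End K V × End K' V'} (he : e ∈ R) (h : IsIdempotentElem e.1) :
    ∃ f ∈ R, f.1 = e.1 ∧ IsIdempotentElem f.2 ∧ range f.2 ≤ range e.2 ∧ ker e.2 ≤ ker f.2 ∧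
      ∀ v, e.2 v = v → f.2 v = v := by
  obtain ⟨n, hn⟩ := hR.nil (x := e - e ^ 2) (R.sub_mem he (R.pow_mem he 2))
    (by simp [pow_two, h.eq])
  have hn' : (e.2 - e.2 ^ 2) ^ (n + 1) = 0 := by
    rw [pow_succ]
    simp only [Prod.snd_sub, Prod.pow_snd] at hn
    rw [hn, zero_mul]
  refine ⟨1 - (1 - e ^ (n + 1)) ^ (n + 1),
    R.sub_mem R.one_mem (R.pow_mem (R.sub_mem R.one_mem (R.pow_mem he _)) _), ?_, ?_, ?_, ?_,
    fun v hv => ?_⟩
  · simp only [Prod.fst_sub, Prod.pow_fst, Prod.fst_one]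
    rw [h.pow_succ_eq, h.one_sub.pow_succ_eq, sub_sub_cancel]
  · exact isIdempotentElem_one_sub_one_sub_pow_pow _ _ hn'
  · simp only [Prod.snd_sub, Prod.pow_snd, Prod.snd_one]
    rw [← mul_neg_geom_sum, sub_sub_cancel, pow_succ', mul_assoc]
    exact LinearMap.range_comp_le_range _ _
  · simp only [Prod.snd_sub, Prod.pow_snd, Prod.snd_one]
    rw [← geom_sum_mul_neg, sub_sub_cancel, pow_succ, ← mul_assoc]
    exact LinearMap.ker_le_ker_comp _ _
  · simp only [Prod.snd_sub, Prod.pow_snd, Prod.snd_one]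
    have h1 : (e.2 ^ (n + 1)) v = v := by
      rw [Module.End.pow_apply]
      exact Function.iterate_fixed hv _
    rw [LinearMap.sub_apply, pow_succ (1 - _), End.mul_apply, LinearMap.sub_apply, h1,
      End.one_apply, sub_self, map_zero, sub_zero]

end Pairing

end Pool.Agent.P.MP_898f40_nt.One

end

section

open Module LinearMap Polynomial

set_option linter.unusedSectionVars false

namespace Pool.Agent.P.MP_898f40_nt.One

section

variable {K B U Q : Type*} [Field K] [AddCommGroup B] [Module K B] [FiniteDimensional K B]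
  [AddCommGroup U] [Module K U] [FiniteDimensional K U] [AddCommGroup Q] [Module K Q]
  [FiniteDimensional K Q]

theorem charpoly_eq_of_equiv (h : End K B) (f : End K U) (e : B ≃ₗ[K] U)
    (he : ∀ v, e (h v) = f (e v)) : h.charpoly = f.charpoly := by
  rw [← LinearEquiv.charpoly_conj e h]
  congr 1
  ext v
  simp [LinearEquiv.conj_apply, he]

theorem charpoly_exact (h : End K B) (f : End K U) (g : End K Q) (i : B →ₗ[K] U) (p : U →ₗ[K] Q)
    (hi : Function.Injective i) (hp : Function.Surjective p) (hex : range i = ker p)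
    (h1 : ∀ v, i (h v) = f (i v)) (h2 : ∀ v, p (f v) = g (p v)) :
    f.charpoly = h.charpoly * g.charpoly := by
  have hS : ker p ≤ (ker p).comap f := fun v hv => by
    rw [Submodule.mem_comap, mem_ker, h2, mem_ker.1 hv, map_zero]
  rw [charpoly_quot f (ker p) hS]
  congr 1
  · refine (charpoly_eq_of_equiv _ _
      ((LinearEquiv.ofInjective i hi).trans (LinearEquiv.ofEq _ _ hex)) fun v => ?_).symm
    exact Subtype.ext (h1 v)
  · refine charpoly_eq_of_equiv _ _ (p.quotKerEquivOfSurjective hp) fun v => ?_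
    induction v using Submodule.Quotient.induction_on with
    | H v => simpa using h2 v

theorem charpoly_dvd (h : End K B) (f : End K U) (i : B →ₗ[K] U) (hi : Function.Injective i)
    (h1 : ∀ v, i (h v) = f (i v)) : h.charpoly ∣ f.charpoly := by
  have hS : range i ≤ (range i).comap f := by
    rintro _ ⟨v, rfl⟩
    exact ⟨h v, h1 v⟩
  exact ⟨_, charpoly_exact h f ((range i).mapQ (range i) f hS) i (range i).mkQ hi
    (range i).mkQ_surjective (Submodule.ker_mkQ _).symm h1 fun v => rfl⟩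

theorem charpoly_dvd' (f : End K U) (g : End K Q) (p : U →ₗ[K] Q) (hp : Function.Surjective p)
    (h2 : ∀ v, p (f v) = g (p v)) : g.charpoly ∣ f.charpoly := by
  have hS : ∀ v ∈ ker p, f v ∈ ker p := fun v hv => by
    rw [mem_ker, h2, mem_ker.1 hv, map_zero]
  exact Dvd.intro_left _ (charpoly_exact (f.restrict hS) f g (ker p).subtype p
    (ker p).subtype_injective hp (Submodule.range_subtype _) (fun _ => rfl) h2).symm

theorem finrank_map_add (f : B →ₗ[K] U) (S : Submodule K B) :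
    finrank K (S.map f) + finrank K (S ⊓ ker f :) = finrank K S := by
  have := finrank_range_add_finrank_ker (f.domRestrict S)
  rw [range_domRestrict, ker_domRestrict] at this
  rw [← this, ← Submodule.map_comap_subtype, Submodule.finrank_map_subtype_eq]

theorem finrank_rel (f : End K U) (S T : Submodule K U) :
    finrank K (S.map f ⊔ T :) + finrank K (S ⊓ T.comap f :) = finrank K S + finrank K T := by
  have h1 := finrank_map_add (T.mkQ ∘ₗ f) S
  have h2 := finrank_map_add T.mkQ (S.map f ⊔ T)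
  rw [ker_comp, Submodule.ker_mkQ, Submodule.map_comp] at h1
  rw [Submodule.ker_mkQ, Submodule.map_sup, Submodule.mkQ_map_self, sup_bot_eq,
    inf_eq_right.2 le_sup_right] at h2
  omega

end

variable {K K' V V' : Type*} [Field K] [CharZero K] [Field K'] [CharZero K'] [AddCommGroup V]
  [Module K V] [FiniteDimensional K V] [AddCommGroup V'] [Module K' V'] [FiniteDimensional K' V']

/-- The two subspaces are the images of one pair of idempotents of the ring. -/
def Good (R : Subring (End K V × End K' V')) (S : Submodule K V) (S' : Submodule K' V') : Prop :=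
  ∃ e ∈ R, IsProj S e.1 ∧ IsProj S' e.2

theorem isProj_inf {S T : Submodule K V} {e p : End K V} (he : IsProj S e) (hp : IsProj T p)
    (h : ∀ v ∈ S, p v ∈ S) : IsProj (S ⊓ T) (p * e) :=
  ⟨fun v => ⟨h _ (he.map_mem v), hp.map_mem _⟩, fun v hv => by
    rw [End.mul_apply, he.map_id v hv.1, hp.map_id v hv.2]⟩

theorem isProj_ker {e : End K V} (he : IsIdempotentElem e) : IsProj (ker e) (1 - e) :=
  ⟨fun v => by
    rw [mem_ker, ← End.mul_apply, mul_sub, mul_one, he.eq, sub_self, LinearMap.zero_apply],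
   fun v hv => by rw [LinearMap.sub_apply, mem_ker.1 hv, sub_zero, End.one_apply]⟩

theorem trace_compress {S : Submodule K V} {e f : End K V} (he : IsProj S e)
    (hS : ∀ v ∈ S, (e * f) v ∈ S) (m : ℕ) :
    trace K S (((e * f).restrict hS) ^ m) = trace K V (e * (e * f) ^ m) := by
  rw [← trace_restrict_eq_of_forall_mem S (e * (e * f) ^ m) fun v => he.map_mem _,
    Module.End.pow_restrict]
  congr 1
  ext v
  simp only [coe_restrict_apply, End.mul_apply]
  exact (he.map_id _ (Module.End.pow_apply_mem_of_forall_mem m hS v v.2)).symm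

variable {R : Subring (End K V × End K' V')}

theorem Good.inf {S T : Submodule K V} {S' T' : Submodule K' V'} (h : Good R S S')
    {p : End K V × End K' V'} (hp : p ∈ R) (h1 : IsProj T p.1) (h2 : IsProj T' p.2)
    (h3 : ∀ v ∈ S, p.1 v ∈ S) (h4 : ∀ v ∈ S', p.2 v ∈ S') : Good R (S ⊓ T) (S' ⊓ T') := by
  obtain ⟨e, he, e1, e2⟩ := h
  exact ⟨p * e, R.mul_mem hp he, isProj_inf e1 h1 h3, isProj_inf e2 h2 h4⟩

namespace Pairing

variable (hR : Pairing R)
include hR

theorem good_finrank {S : Submodule K V} {S' : Submodule K' V'} (h : Good R S S') :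
    finrank K S = finrank K' S' := by
  obtain ⟨e, he, e1, e2⟩ := h
  obtain ⟨τ, h1, h2⟩ := hR.tr e he
  rw [e1.trace] at h1
  rw [e2.trace] at h2
  have h3 : (finrank K S : ℚ) = τ := by exact_mod_cast h1
  have h4 : (finrank K' S' : ℚ) = τ := by exact_mod_cast h2
  exact_mod_cast h3.trans h4.symm

theorem img0 {x : End K V × End K' V'} (hx : x ∈ R) :
    ∃ S', S' ≤ range x.2 ∧ Good R (range x.1) S' := by
  obtain ⟨h, hh, h1⟩ := hR.reg hx
  have h2 : IsIdempotentElem (x * h).1 := by
    rw [IsIdempotentElem, Prod.fst_mul, ← mul_assoc, h1]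
  obtain ⟨f, hf, f1, f2, f3, -⟩ := hR.lift (R.mul_mem hx hh) h2
  refine ⟨range f.2, f3.trans (LinearMap.range_comp_le_range _ _), f, hf, ?_, f2.isProj_range⟩
  rw [f1]
  refine ⟨fun v => ⟨_, rfl⟩, ?_⟩
  rintro _ ⟨v, rfl⟩
  exact LinearMap.congr_fun h1 v

theorem kern0 {x : End K V × End K' V'} (hx : x ∈ R) :
    ∃ S', ker x.2 ≤ S' ∧ Good R (ker x.1) S' := by
  obtain ⟨h, hh, h1⟩ := hR.reg hx
  have h2 : IsIdempotentElem (h * x).1 := by
    rw [IsIdempotentElem, Prod.fst_mul, mul_assoc, ← mul_assoc x.1, h1]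
  obtain ⟨f, hf, f1, f2, -, f3, -⟩ := hR.lift (R.mul_mem hh hx) h2
  refine ⟨ker f.2, (LinearMap.ker_le_ker_comp _ _).trans f3, 1 - f, R.sub_mem R.one_mem hf, ?_,
    isProj_ker f2⟩
  have : ker x.1 = ker (h * x).1 := by
    refine le_antisymm (LinearMap.ker_le_ker_comp _ _) fun v hv => ?_
    rw [mem_ker, ← h1, mul_assoc, End.mul_apply]
    exact (congrArg x.1 (mem_ker.1 hv)).trans (map_zero _)
  rw [this, Prod.fst_sub, f1]
  exact isProj_ker h2

variable {u : End K V} {u' : End K' V'}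

theorem img (hx : (u, u') ∈ R) : ∃ S', S' ≤ range u' ∧ Good R (range u) S' := hR.img0 hx

theorem kern (hx : (u, u') ∈ R) : ∃ S', ker u' ≤ S' ∧ Good R (ker u) S' := hR.kern0 hx

theorem rank_le (hx : (u, u') ∈ R) :
    finrank K (range u) ≤ finrank K' (range u') := by
  obtain ⟨S', h1, h2⟩ := hR.img hx
  rw [hR.good_finrank h2]
  exact Submodule.finrank_mono h1

theorem good_range (hx : (u, u') ∈ R)
    (h : finrank K' (range u') ≤ finrank K (range u)) : Good R (range u) (range u') := by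
  obtain ⟨S', h1, h2⟩ := hR.img hx
  rwa [← Submodule.eq_of_le_of_finrank_le h1 (h.trans (hR.good_finrank h2).le)]

theorem good_ker (hx : (u, u') ∈ R)
    (h : finrank K' (range u') ≤ finrank K (range u)) : Good R (ker u) (ker u') := by
  obtain ⟨S', h1, h2⟩ := hR.kern hx
  have h3 := hR.good_finrank h2
  have h4 := finrank_range_add_finrank_ker u
  have h5 := finrank_range_add_finrank_ker u'
  have h6 := hR.finrank_eq
  rwa [Submodule.eq_of_le_of_finrank_le h1 (by omega)]

theorem rel0 {S B : Submodule K V} {S' B' : Submodule K' V'} (hS : Good R S S') (hB : Good R B B')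
    {x : End K V × End K' V'} (hx : x ∈ R) :
    ∃ S'', S' ⊓ B'.comap x.2 ≤ S'' ∧ Good R (S ⊓ B.comap x.1) S'' := by
  obtain ⟨z, hz, z1, z2⟩ := hS
  obtain ⟨b, hb, b1, b2⟩ := hB
  obtain ⟨T, hT, κ, hκ, k1, k2⟩ := hR.kern0 (R.mul_mem (R.mul_mem (R.sub_mem R.one_mem hb) hx) hz)
  have h1 : IsProj (S ⊓ B.comap x.1) (z * κ).1 := by
    refine ⟨fun v => ⟨z1.map_mem _, ?_⟩, fun v hv => ?_⟩
    · have h2 : x.1 (z.1 (κ.1 v)) - b.1 (x.1 (z.1 (κ.1 v))) = 0 := k1.map_mem v
      change x.1 (z.1 (κ.1 v)) ∈ B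
      rw [sub_eq_zero.1 h2]
      exact b1.map_mem _
    · have h2 : κ.1 v = v := k1.map_id v (by
        change x.1 (z.1 v) - b.1 (x.1 (z.1 v)) = 0
        rw [z1.map_id v hv.1, b1.map_id _ hv.2, sub_self])
      change z.1 (κ.1 v) = v
      rw [h2, z1.map_id v hv.1]
  obtain ⟨f, hf, f1, f2, -, -, f3⟩ := hR.lift (R.mul_mem hz hκ) h1.isIdempotentElem
  refine ⟨range f.2, fun v hv => ⟨v, f3 v ?_⟩, f, hf, f1 ▸ h1, f2.isProj_range⟩
  have h2 : κ.2 v = v := k2.map_id v (hT (by
    change x.2 (z.2 v) - b.2 (x.2 (z.2 v)) = 0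
    rw [z2.map_id v hv.1, b2.map_id _ hv.2, sub_self]))
  change z.2 (κ.2 v) = v
  rw [h2, z2.map_id v hv.1]

theorem rel {S B : Submodule K V} {S' B' : Submodule K' V'} (hS : Good R S S') (hB : Good R B B')
    (hx : (u, u') ∈ R) : ∃ S'', S' ⊓ B'.comap u' ≤ S'' ∧ Good R (S ⊓ B.comap u) S'' :=
  hR.rel0 hS hB hx

theorem rel_le {S B : Submodule K V} {S' B' : Submodule K' V'} (hS : Good R S S')
    (hB : Good R B B') (hx : (u, u') ∈ R) :
    finrank K' (S' ⊓ B'.comap u' :) ≤ finrank K (S ⊓ B.comap u :) := by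
  obtain ⟨T, h1, h2⟩ := hR.rel hS hB hx
  rw [hR.good_finrank h2]
  exact Submodule.finrank_mono h1

theorem rel_good {S B : Submodule K V} {S' B' : Submodule K' V'} (hS : Good R S S')
    (hB : Good R B B') (hx : (u, u') ∈ R)
    (h : finrank K (S ⊓ B.comap u :) ≤ finrank K' (S' ⊓ B'.comap u' :)) :
    Good R (S ⊓ B.comap u) (S' ⊓ B'.comap u') := by
  obtain ⟨T, h1, h2⟩ := hR.rel hS hB hx
  rwa [Submodule.eq_of_le_of_finrank_le h1 ((hR.good_finrank h2).ge.trans h)]

theorem chi (hF : (u, u') ∈ R) {S : Submodule K V} {S' S'' : Submodule K' V'}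
    (h : Good R S S'') (hle : S' ≤ S'') (hS : ∀ v ∈ S, u v ∈ S) (hS' : ∀ v ∈ S', u' v ∈ S') :
    ∃ P : ℚ[X], (u.restrict hS).charpoly = P.map (algebraMap ℚ K) ∧
      (u'.restrict hS').charpoly ∣ P.map (algebraMap ℚ K') := by
  obtain ⟨e, he, e1, e2⟩ := h
  have g1 : ∀ v ∈ S, (e.1 * u) v ∈ S := fun v _ => e1.map_mem _
  have g2 : ∀ v ∈ S'', (e.2 * u') v ∈ S'' := fun v _ => e2.map_mem _
  obtain ⟨P, h1, h2⟩ := newton ((e.1 * u).restrict g1) ((e.2 * u').restrict g2) fun m => by
    rw [trace_compress e1, trace_compress e2]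
    exact hR.tr _ (R.mul_mem he (R.pow_mem (R.mul_mem he hF) m))
  refine ⟨P, ?_, ?_⟩
  · rw [← h1]
    congr 1
    ext v
    exact (e1.map_id _ (hS v v.2)).symm
  · rw [← h2]
    refine charpoly_dvd _ _ (Submodule.inclusion hle) (Submodule.inclusion_injective hle)
      fun v => Subtype.ext ?_
    exact (e2.map_id _ (hle (hS' v v.2))).symm

end Pairing

end Pool.Agent.P.MP_898f40_nt.One

end
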