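import Pool.Agent.P.MP_898f40_nt.OneMove
import Pool.Agent.P.MP_638e8a_ag.H58Weil

/-!
Correspondences act on two Weil cohomology theories with the same rational traces; the ring of
pairs of operators induced by matrices of correspondences.
-/

section

open Module LinearMap Polynomial CategoryTheory
open Pool.Agent.P.MP_638e8a_ag.H58 SmProj

set_option linter.unusedSectionVars false

universe u v v' w w'

namespace Pool.Agent.P.MP_898f40_nt.One

variable {k : Type u} [Field k] {A : Chow k} {K : Type v} [Field K] [CharZero K] {K' : Type v'}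
  [Field K'] [CharZero K'] (W : Weil.{u, v, w} A K) (W' : Weil.{u, v', w'} A K')

section

variable {X Y Z : SmProj k}

/-- The cohomology class `c` on a product acts as `T`. -/
def Op (c : W.H (X.prod Y)) (T : W.H X →ₗ[K] W.H Y) : Prop :=
  ∀ x y, W.tr Y (T x * y) = W.tr _ (W.pull (p1 X Y) x * c * W.pull (p2 X Y) y)

/-- An operator of rank at most one. -/
noncomputable def rk (a : W.H X) (b : W.H Y) : W.H X →ₗ[K] W.H Y :=
  (W.tr X ∘ₗ mulRight K a).smulRight b

variable {W}

theorem Op.unique {c : W.H (X.prod Y)} {T T' : W.H X →ₗ[K] W.H Y} (h : Op W c T)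
    (h' : Op W c T') : T = T' := by
  ext x
  exact sub_eq_zero.1 (W.poincare Y _ fun y => by rw [sub_mul, map_sub, h, h', sub_self])

theorem Op.add {c c' : W.H (X.prod Y)} {T T' : W.H X →ₗ[K] W.H Y} (h : Op W c T)
    (h' : Op W c' T') : Op W (c + c') (T + T') := fun x y => by
  simp only [LinearMap.add_apply, add_mul, mul_add, map_add, h x y, h' x y]

theorem Op.smul {c : W.H (X.prod Y)} {T : W.H X →ₗ[K] W.H Y} (h : Op W c T) (q : K) :
    Op W (q • c) (q • T) := fun x y => by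
  simp only [LinearMap.smul_apply, smul_mul_assoc, mul_smul_comm, map_smul, h x y]

theorem op_zero : Op W (0 : W.H (X.prod Y)) 0 := fun x y => by simp

theorem op_rk (a : W.H X) (b : W.H Y) :
    Op W (W.pull (p1 X Y) a * W.pull (p2 X Y) b) (rk W a b) := fun x y => by
  rw [← mul_assoc, ← map_mul, mul_assoc, ← map_mul, W.tr_prod]
  simp [rk]

theorem exists_op_and {P : W.H (X.prod Y) → (W.H X →ₗ[K] W.H Y) → Prop} (h0 : P 0 0)
    (h1 : ∀ a b, P (W.pull (p1 X Y) a * W.pull (p2 X Y) b) (rk W a b))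
    (h2 : ∀ c T c' T', P c T → P c' T' → P (c + c') (T + T')) (c : W.H (X.prod Y)) :
    ∃ T, Op W c T ∧ P c T := by
  induction c using W.kun_induction with
  | h0 => exact ⟨0, op_zero, h0⟩
  | h1 a b => exact ⟨_, op_rk a b, h1 a b⟩
  | h2 c c' hc hc' =>
    obtain ⟨T, a1, a2⟩ := hc
    obtain ⟨T', b1, b2⟩ := hc'
    exact ⟨_, a1.add b1, h2 _ _ _ _ a2 b2⟩

theorem exists_op (c : W.H (X.prod Y)) : ∃ T, Op W c T :=
  (exists_op_and (P := fun _ _ => True) trivial (fun _ _ => trivial)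
    (fun _ _ _ _ _ _ => trivial) c).imp fun _ h => h.1

theorem Op.induction {P : W.H (X.prod Y) → (W.H X →ₗ[K] W.H Y) → Prop} (h0 : P 0 0)
    (h1 : ∀ a b, P (W.pull (p1 X Y) a * W.pull (p2 X Y) b) (rk W a b))
    (h2 : ∀ c T c' T', P c T → P c' T' → P (c + c') (T + T')) {c : W.H (X.prod Y)}
    {T : W.H X →ₗ[K] W.H Y} (h : Op W c T) : P c T := by
  obtain ⟨T', a1, a2⟩ := exists_op_and h0 h1 h2 c
  rwa [h.unique a1]

theorem tr_sign {ε : End K (W.H X)} (hε : ∀ j, ∀ x ∈ W.deg X j, ε x = (-1 : K) ^ j • x)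
    (a b : W.H X) : W.tr X (ε a * b) = W.tr X (b * a) := by
  induction a using W.deg_induction with
  | h0 => simp
  | h2 x y hx hy => rw [map_add, add_mul, mul_add, map_add, map_add, hx, hy]
  | h1 i a ha =>
    induction b using W.deg_induction with
    | h0 => simp
    | h2 x y hx hy => rw [add_mul, mul_add, map_add, map_add, hx, hy]
    | h1 j b hb =>
      rw [hε i a ha, W.mul_comm X j i b hb a ha, smul_mul_assoc, map_smul, map_smul]
      by_cases hij : i + j = 2 * X.dim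
      · congr 1
        rcases Nat.even_or_odd i with hi | hi
        · rw [hi.neg_one_pow, (hi.mul_left j).neg_one_pow]
        · have hj : Odd j := by
            rw [Nat.odd_iff] at hi ⊢
            omega
          rw [hi.neg_one_pow, (hj.mul hi).neg_one_pow]
      · rw [W.tr_deg X _ hij _ (W.mul_mem ha hb), smul_zero, smul_zero]

theorem tr_three (a a' : W.H X) (b : W.H Y) :
    W.tr _ (W.pull (p1 X Y) a * W.pull (p2 X Y) b * W.pull (p1 X Y) a') =
      W.tr X (a * a') * W.tr Y b := by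
  induction a' using W.deg_induction with
  | h0 => simp
  | h2 x y hx hy => simp only [map_add, mul_add, add_mul, hx, hy]
  | h1 i a' ha =>
    induction b using W.deg_induction with
    | h0 => simp
    | h2 x y hx hy => simp only [map_add, mul_add, add_mul, hx, hy]
    | h1 j b hb =>
      rw [mul_assoc, W.mul_comm _ j i _ (W.pull_deg _ j b hb) _ (W.pull_deg _ i a' ha),
        mul_smul_comm, map_smul, ← mul_assoc, ← map_mul, W.tr_prod]
      by_cases hj : j = 2 * Y.dim
      · rw [hj, mul_assoc, pow_mul]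
        simp
      · simp [W.tr_deg Y j hj b hb]

/-- The trace formula. -/
theorem trace_op {ε : End K (W.H X)} (hε : ∀ j, ∀ x ∈ W.deg X j, ε x = (-1 : K) ^ j • x)
    {c : W.H (X.prod Y)} {T : W.H X →ₗ[K] W.H Y} (h : Op W c T) {e : W.H (Y.prod X)}
    {S : W.H Y →ₗ[K] W.H X} (h' : Op W e S) :
    trace K _ (T ∘ₗ ε ∘ₗ S) = W.tr _ (c * W.pull (pair (p2 X Y) (p1 X Y)) e) := by
  refine Op.induction (P := fun c T => trace K _ (T ∘ₗ ε ∘ₗ S) =
    W.tr _ (c * W.pull (pair (p2 X Y) (p1 X Y)) e)) (by simp) (fun a b => ?_)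
    (fun _ _ _ _ h1 h2 => by rw [LinearMap.add_comp, map_add, add_mul, map_add, h1, h2]) h
  refine Op.induction (P := fun e S => trace K _ (rk W a b ∘ₗ ε ∘ₗ S) =
    W.tr _ (W.pull (p1 X Y) a * W.pull (p2 X Y) b * W.pull (pair (p2 X Y) (p1 X Y)) e)) (by simp)
    (fun b' a' => ?_)
    (fun _ _ _ _ h1 h2 => by
      rw [LinearMap.comp_add, LinearMap.comp_add, map_add, map_add, mul_add, map_add, h1, h2]) h'
  have : rk W a b ∘ₗ ε ∘ₗ rk W b' a' =
      (W.tr X (ε a' * a) • (W.tr Y ∘ₗ mulRight K b')).smulRight b := by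
    ext y
    simp [rk, mul_comm, mul_smul]
  rw [this, trace_smulRight, map_mul (W.pull (pair _ _)), ← W.pull_comp, ← W.pull_comp, pair_p1, pair_p2,
    ← mul_assoc, mul_assoc (W.pull _ a), ← map_mul, tr_three, tr_sign hε]
  simp

theorem tr_triple (a : W.H (X.prod Y)) {x : W.H Y}
    (hx : ∀ y, W.tr Y (x * y) = W.tr _ (a * W.pull (p2 X Y) y)) (b : W.H (Y.prod Z)) :
    W.tr _ (W.pull (p1 (X.prod Y) Z) a *
      W.pull (pair (p1 (X.prod Y) Z ≫ p2 X Y) (p2 (X.prod Y) Z)) b) =
      W.tr _ (W.pull (p1 Y Z) x * b) := by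
  induction b using W.kun_induction with
  | h0 => simp
  | h2 b b' hb hb' => simp only [map_add, mul_add, hb, hb']
  | h1 y z =>
    rw [map_mul (W.pull (pair _ _)), ← W.pull_comp, ← W.pull_comp, pair_p1, pair_p2, W.pull_comp,
      ← mul_assoc,      ← map_mul, W.tr_prod, ← mul_assoc, ← map_mul, W.tr_prod, hx]

theorem acts_comp {α : A.CH (X.prod Y)} {β : A.CH (Y.prod Z)} {T : W.H X →ₗ[K] W.H Y}
    {S : W.H Y →ₗ[K] W.H Z} (h : W.Acts α T) (h' : W.Acts β S) :
    W.Acts (A.comp α β) (S ∘ₗ T) := fun x z => by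
  rw [Chow.comp, W.tr_cl_push, ← W.pull_comp, ← W.pull_comp, pair_p1, pair_p2, map_mul (W.cl _),
    W.cl_pull, W.cl_pull, W.pull_comp, ← mul_assoc, ← map_mul, LinearMap.comp_apply,
    h' (T x) z, mul_assoc,
    ← tr_triple _ (h x), map_mul (W.pull (pair _ _)), ← W.pull_comp, pair_p2, mul_assoc]

theorem acts_add {α β : A.CH (X.prod Y)} {T S : W.H X →ₗ[K] W.H Y} (h : W.Acts α T)
    (h' : W.Acts β S) : W.Acts (α + β) (T + S) := by
  change Op W (W.cl _ _) _
  rw [map_add]
  exact Op.add h h'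

theorem acts_smul {α : A.CH (X.prod Y)} {T : W.H X →ₗ[K] W.H Y} (h : W.Acts α T) (q : ℚ) :
    W.Acts (q • α) ((q : K) • T) := by
  change Op W (W.cl _ _) _
  rw [W.cl_smul]
  exact Op.smul h q

theorem acts_zero : W.Acts (0 : A.CH (X.prod Y)) 0 := by
  change Op W (W.cl _ _) _
  rw [map_zero]
  exact op_zero

theorem acts_sum {ι : Type*} (s : Finset ι) {α : ι → A.CH (X.prod Y)}
    {T : ι → W.H X →ₗ[K] W.H Y} (h : ∀ i, W.Acts (α i) (T i)) :
    W.Acts (∑ i ∈ s, α i) (∑ i ∈ s, T i) := by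
  classical
  induction s using Finset.induction_on with
  | empty => exact acts_zero
  | insert i s hi ih =>
    rw [Finset.sum_insert hi, Finset.sum_insert hi]
    exact acts_add (h i) ih

theorem acts_diag : W.Acts (A.diag X) LinearMap.id := fun x y => (W.tr_diag x y).symm

variable (W) in
/-- The sign operator. -/
noncomputable def sgn (X : SmProj k) : End K (W.H X) :=
  ∑ j ∈ Finset.range (2 * X.dim + 1), (((-1 : ℚ) ^ j : ℚ) : K) • W.proj X j

theorem sgn_apply (j : ℕ) : ∀ x ∈ W.deg X j, sgn W X x = (-1 : K) ^ j • x := by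
  intro x hx
  by_cases hj : j ∈ Finset.range (2 * X.dim + 1)
  · rw [sgn, LinearMap.sum_apply, Finset.sum_eq_single_of_mem j hj fun i _ hi => by
      rw [LinearMap.smul_apply, W.proj_of_mem_ne hx hi.symm, smul_zero]]
    simp [W.proj_of_mem hx]
  · rw [W.deg_eq_bot X j (by simpa using hj), Submodule.mem_bot] at hx
    simp [hx]

theorem sgn_sgn : sgn W X ∘ₗ sgn W X = LinearMap.id :=
  W.deg_ext fun j x hx => by
    rw [LinearMap.comp_apply, sgn_apply j x hx, map_smul, sgn_apply j x hx, smul_smul, ← mul_pow]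
    simp

theorem trace_acts {α : A.CH (X.prod Y)} {β : A.CH (Y.prod X)} {T : W.H X →ₗ[K] W.H Y}
    {S : W.H Y →ₗ[K] W.H X} (h : W.Acts α T) (h' : W.Acts β S) {q : ℚ}
    (hq : A.push (toPt _) (α * A.pull (pair (p2 X Y) (p1 X Y)) β) = q • 1) :
    trace K _ (T ∘ₗ sgn W X ∘ₗ S) = q := by
  rw [trace_op sgn_apply h h', ← W.cl_pull, ← map_mul, W.tr_cl_eq hq]

end

end Pool.Agent.P.MP_898f40_nt.One

end

section

open Module LinearMap Polynomial CategoryTheory
open Pool.Agent.P.MP_638e8a_ag.H58 SmProj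

set_option linter.unusedSectionVars false

universe u v v' w w'

namespace Pool.Agent.P.MP_898f40_nt.One

variable {k : Type u} [Field k] {A : Chow k} {K : Type v} [Field K] [CharZero K] {K' : Type v'}
  [Field K'] [CharZero K'] {W : Weil.{u, v, w} A K} {W' : Weil.{u, v', w'} A K'} {n : ℕ}
  {Y : Fin n → SmProj k}

/-- The operator with one nonzero block. -/
noncomputable def ent {x y : Fin n} (S : W.H (Y x) →ₗ[K] W.H (Y y)) :
    Module.End K (Tot W Y) :=
  LinearMap.single K (fun z => W.H (Y z)) y ∘ₗ S ∘ₗ LinearMap.proj x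

/-- A block of an operator. -/
noncomputable def blk (T : Module.End K (Tot W Y)) (x y : Fin n) :
    W.H (Y x) →ₗ[K] W.H (Y y) :=
  LinearMap.proj y ∘ₗ T ∘ₗ LinearMap.single K (fun z => W.H (Y z)) x

theorem blk_sum (T : Module.End K (Tot W Y)) (v) (y) : T v y = ∑ x, blk T x y (v x) := by
  conv_lhs => rw [← Finset.univ_sum_single v, map_sum, Finset.sum_apply]
  rfl

theorem mActs_iff {Γ : ∀ x y, A.CH ((Y x).prod (Y y))} {T : Module.End K (Tot W Y)} :
    MActs W Y Γ T ↔ ∀ x y, W.Acts (Γ x y) (blk T x y) := by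
  refine ⟨fun ⟨S, h1, h2⟩ x y => ?_, fun h => ⟨_, h, blk_sum T⟩⟩
  have : blk T x y = S x y := by
    ext u
    change T (Pi.single x u) y = _
    rw [h2, Finset.sum_eq_single x (fun z _ hz => by rw [Pi.single_eq_of_ne hz, map_zero])
      (by simp), Pi.single_eq_same]
  rw [this]
  exact h1 x y

theorem alg_iff {T : Module.End K (Tot W Y)} {T' : Module.End K' (Tot W' Y)} :
    Alg W W' Y T T' ↔ ∀ x y, ∃ γ, W.Acts γ (blk T x y) ∧ W'.Acts γ (blk T' x y) := by
  refine ⟨fun ⟨Γ, h1, h2⟩ x y => ⟨_, mActs_iff.1 h1 x y, mActs_iff.1 h2 x y⟩, fun h => ?_⟩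
  choose Γ h1 h2 using h
  exact ⟨Γ, mActs_iff.2 h1, mActs_iff.2 h2⟩

theorem blk_mul (T S : Module.End K (Tot W Y)) (x z) :
    blk (S * T) x z = ∑ y, blk S y z ∘ₗ blk T x y := by
  ext u
  rw [LinearMap.sum_apply]
  exact blk_sum S _ z

theorem blk_one_same (x) : blk (1 : Module.End K (Tot W Y)) x x = LinearMap.id := by
  ext u
  simp [blk]

theorem blk_one_ne {x y} (h : y ≠ x) : blk (1 : Module.End K (Tot W Y)) x y = 0 := by
  ext u
  simp [blk, Pi.single_eq_of_ne h]

theorem blk_ent_same {x y : Fin n} (S : W.H (Y x) →ₗ[K] W.H (Y y)) : blk (ent S) x y = S := by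
  ext u
  simp [blk, ent]

theorem blk_ent_ne {x y x' y' : Fin n} (S : W.H (Y x) →ₗ[K] W.H (Y y)) (h : x ≠ x' ∨ y' ≠ y) :
    blk (ent S) x' y' = 0 := by
  ext u
  rcases h with h | h <;> simp [blk, ent, Pi.single_eq_of_ne h]

theorem trace_mul_ent (T : Module.End K (Tot W Y)) {x y : Fin n}
    (S : W.H (Y y) →ₗ[K] W.H (Y x)) : trace K _ (T * ent S) = trace K _ (blk T x y ∘ₗ S) := by
  rw [Module.End.mul_eq_comp, ent, ← LinearMap.comp_assoc, ← LinearMap.comp_assoc,
    trace_comp_comm']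
  rfl

theorem trace_eq_sum (T : Module.End K (Tot W Y)) :
    trace K _ T = ∑ x, trace K _ (blk T x x) := by
  have : ∑ x, ent (W := W) (Y := Y) (x := x) (y := x) LinearMap.id = 1 := by
    refine LinearMap.ext fun v => ?_
    rw [LinearMap.sum_apply]
    exact Finset.univ_sum_single v
  conv_lhs => rw [← mul_one T, ← this, Finset.mul_sum, map_sum]
  exact Finset.sum_congr rfl fun x _ => trace_mul_ent T _

theorem alg_smul_one (q : ℚ) : Alg W W' Y ((q : K) • 1) ((q : K') • 1) :=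
  alg_iff.2 fun x y => by
    change ∃ γ, W.Acts γ ((q : K) • blk (W := W) 1 x y) ∧
      W'.Acts γ ((q : K') • blk (W := W') 1 x y)
    by_cases h : y = x
    · subst h
      rw [blk_one_same, blk_one_same]
      exact ⟨_, acts_smul acts_diag q, acts_smul acts_diag q⟩
    · rw [blk_one_ne h, blk_one_ne h]
      exact ⟨_, acts_smul acts_zero q, acts_smul acts_zero q⟩

theorem alg_mul {T S : Module.End K (Tot W Y)} {T' S' : Module.End K' (Tot W' Y)}
    (hS : Alg W W' Y S S') (hT : Alg W W' Y T T') : Alg W W' Y (S * T) (S' * T') := by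
  rw [alg_iff] at hS hT ⊢
  choose α a1 a2 using hT
  choose β b1 b2 using hS
  intro x z
  rw [blk_mul, blk_mul]
  exact ⟨_, acts_sum _ fun y => acts_comp (a1 x y) (b1 y z),
    acts_sum _ fun y => acts_comp (a2 x y) (b2 y z)⟩

variable (W W' Y) in
/-- Pairs of operators induced by one matrix of correspondences. -/
def algRing : Subring (Module.End K (Tot W Y) × Module.End K' (Tot W' Y)) where
  carrier := {T | Alg W W' Y T.1 T.2}
  mul_mem' := alg_mul
  one_mem' := by simpa using alg_smul_one (W := W) (W' := W') (Y := Y) 1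
  add_mem' := fun hS hT => alg_iff.2 fun x y => by
    obtain ⟨α, a1, a2⟩ := alg_iff.1 hS x y
    obtain ⟨β, b1, b2⟩ := alg_iff.1 hT x y
    exact ⟨_, acts_add a1 b1, acts_add a2 b2⟩
  zero_mem' := alg_iff.2 fun _ _ => ⟨0, acts_zero, acts_zero⟩
  neg_mem' := fun hS => by simpa using alg_mul (alg_smul_one (-1)) hS

theorem ent_mem {x y : Fin n} {γ} {S : W.H (Y x) →ₗ[K] W.H (Y y)}
    {S' : W'.H (Y x) →ₗ[K'] W'.H (Y y)} (h : W.Acts γ S) (h' : W'.Acts γ S') :
    (ent S, ent S') ∈ algRing W W' Y :=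
  alg_iff.2 fun x' y' => by
    by_cases hx : x ≠ x' ∨ y' ≠ y
    · rw [blk_ent_ne _ hx, blk_ent_ne _ hx]
      exact ⟨0, acts_zero, acts_zero⟩
    · obtain ⟨rfl, rfl⟩ : x = x' ∧ y' = y := by tauto
      rw [blk_ent_same, blk_ent_same]
      exact ⟨γ, h, h'⟩

theorem exists_sgn {X : SmProj k}
    (hK : ∀ j, ∃ γ, W.Acts γ (W.proj X j) ∧ W'.Acts γ (W'.proj X j)) :
    ∃ η, W.Acts η (sgn W X) ∧ W'.Acts η (sgn W' X) := by
  choose γ h1 h2 using hK
  exact ⟨_, acts_sum _ fun j => acts_smul (h1 j) _, acts_sum _ fun j => acts_smul (h2 j) _⟩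

theorem pairing (hK : ∀ x j, ∃ γ, W.Acts γ (W.proj (Y x) j) ∧ W'.Acts γ (W'.proj (Y x) j))
    (hD : ∀ x y, HomNum W ((Y x).prod (Y y))) : Pairing (algRing W W' Y) := by
  choose η e1 e2 using fun x => exists_sgn (hK x)
  refine ⟨alg_smul_one, fun T hT => ?_, fun T hT h => ?_⟩
  · choose γ h1 h2 using alg_iff.1 hT
    choose q hq using fun x => A.exists_eq_smul_one
      (A.push (toPt _) (γ x x * A.pull (pair (p2 _ _) (p1 _ _)) (η x)))
    refine ⟨∑ x, q x, ?_, ?_⟩
    · rw [trace_eq_sum, Rat.cast_sum]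
      refine Finset.sum_congr rfl fun x _ => ?_
      rw [← trace_acts (h1 x x) (e1 x) (hq x), sgn_sgn, LinearMap.comp_id]
    · rw [trace_eq_sum, Rat.cast_sum]
      refine Finset.sum_congr rfl fun x _ => ?_
      rw [← trace_acts (h2 x x) (e2 x) (hq x), sgn_sgn, LinearMap.comp_id]
  · choose γ h1 h2 using alg_iff.1 hT
    have : ∀ x y, blk T.1 x y = 0 := fun x y => by
      have h0 : W.cl _ (γ x y) = 0 := hD x y _ fun δ => by
        obtain ⟨q, hq⟩ := A.exists_eq_smul_one (A.push (toPt _) (γ x y * δ))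
        obtain ⟨S, hS⟩ := exists_op (W.cl _ (A.pull (pair (p2 (Y y) (Y x)) (p1 (Y y) (Y x))) δ))
        obtain ⟨S', hS'⟩ := exists_op (W'.cl _ (A.pull (pair (p2 (Y y) (Y x)) (p1 (Y y) (Y x))) δ))
        have h3 := h _ (ent_mem (acts_comp hS (e1 x)) (acts_comp hS' (e2 x)))
        have h4 : pair (p2 (Y x) (Y y)) (p1 (Y x) (Y y)) ≫
            pair (p2 (Y y) (Y x)) (p1 (Y y) (Y x)) = 𝟙 _ := by ext <;> simp
        rw [trace_mul_ent, trace_acts (q := q) (h1 x y) hS
          (by rw [← A.pull_comp, h4, A.pull_id, hq])] at h3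
        rw [hq, Rat.cast_eq_zero.1 h3, zero_smul]
      exact Op.unique (h1 x y) (h0 ▸ op_zero)
    refine LinearMap.ext fun v => funext fun y => ?_
    rw [blk_sum]
    simp [this]

variable (W Y) in
/-- The projector of one summand onto a bidegree. -/
noncomputable def loc (c t : Fin n → ℤ) (a b : ℤ) (x : Fin n) : Module.End K (W.H (Y x)) :=
  if c x = a ∧ 2 * t x ≤ b then W.proj (Y x) (b - 2 * t x).toNat else 0

theorem sum_ent_apply (S : ∀ x, Module.End K (W.H (Y x))) (v) (y) :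
    (∑ x, ent (S x)) v y = S y (v y) := by
  rw [LinearMap.sum_apply, Finset.sum_apply, Finset.sum_eq_single y
    (fun x _ hx => Pi.single_eq_of_ne hx.symm _) (by simp)]
  exact Pi.single_eq_same _ _

theorem loc_of_mem (c t : Fin n → ℤ) (a b : ℤ) (x : Fin n) {j : ℕ} {u : W.H (Y x)}
    (hu : u ∈ W.deg (Y x) j) :
    loc W Y c t a b x u = if c x = a ∧ j + 2 * t x = b then u else 0 := by
  rw [loc]
  split_ifs with h1 h2 h2
  · rw [show (b - 2 * t x).toNat = j by omega, W.proj_of_mem hu]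
  · exact W.proj_of_mem_ne hu (by omega)
  · omega
  · rfl

theorem single_mem_grade (c t : Fin n → ℤ) (x : Fin n) {j : ℕ} {u : W.H (Y x)}
    (hu : u ∈ W.deg (Y x) j) : Pi.single x u ∈ grade W Y c t (c x) (j + 2 * t x) := by
  intro y _
  by_cases h : y = x
  · subst h
    rw [Pi.single_eq_same]
    exact Submodule.mem_iSup_of_mem j (Submodule.mem_iSup_of_mem ⟨rfl, rfl⟩ hu)
  · rw [Pi.single_eq_of_ne h]
    exact zero_mem _

theorem split (c t : Fin n → ℤ) : Split (grade W Y c t)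
    (fun a b => ∑ x, ent (loc W Y c t a b x)) (Finset.univ.image c) := by
  refine ⟨fun a b => ⟨fun v y _ => ?_, fun v hv => funext fun y => ?_⟩,
    fun a b a' b' h v hv => funext fun y => ?_, ?_, fun a ha b => ?_⟩
  · rw [sum_ent_apply, loc]
    split_ifs with h
    · exact Submodule.mem_iSup_of_mem (b - 2 * t y).toNat
        (Submodule.mem_iSup_of_mem ⟨h.1, by omega⟩ (W.proj_mem _ _))
    · exact zero_mem _
  · rw [sum_ent_apply]
    have : (⨆ (j : ℕ) (_ : c y = a ∧ j + 2 * t y = b), W.deg (Y y) j) ≤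
        eqLocus (loc W Y c t a b y) LinearMap.id :=
      iSup₂_le fun j hj u hu => (loc_of_mem c t a b y hu).trans (if_pos hj)
    exact this (hv y trivial)
  · rw [sum_ent_apply]
    have : (⨆ (j : ℕ) (_ : c y = a' ∧ j + 2 * t y = b'), W.deg (Y y) j) ≤
        ker (loc W Y c t a b y) :=
      iSup₂_le fun j hj u hu => (loc_of_mem c t a b y hu).trans (if_neg (by omega))
    exact this (hv y trivial)
  · refine eq_top_iff.2 fun v _ => ?_
    rw [← Finset.univ_sum_single v]
    refine Submodule.sum_mem _ fun x _ => ?_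
    induction v x using W.deg_induction with
    | h0 => simp
    | h1 j u hu =>
      exact Submodule.mem_iSup_of_mem _ (Submodule.mem_iSup_of_mem _ (single_mem_grade c t x hu))
    | h2 u u' hu hu' =>
      rw [Pi.single_add]
      exact add_mem hu hu'
  · refine eq_bot_iff.2 fun v hv => funext fun y => ?_
    have : (⨆ (j : ℕ) (_ : c y = a ∧ j + 2 * t y = b), W.deg (Y y) j) ≤ ⊥ :=
      iSup₂_le fun j hj => (ha (Finset.mem_image.2 ⟨y, Finset.mem_univ _, hj.1⟩)).elim
    exact this (hv y trivial)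

theorem setup {c t : Fin n → ℤ} (M : Page (grade W Y c t)) (M' : Page (grade W' Y c t))
    (hd : Alg W W' Y M.d M'.d) (hN : Alg W W' Y M.N M'.N)
    (hK : ∀ x j, ∃ γ, W.Acts γ (W.proj (Y x) j) ∧ W'.Acts γ (W'.proj (Y x) j))
    (hD : ∀ x y, HomNum W ((Y x).prod (Y y))) :
    Setup (algRing W W' Y) M M' (fun a b => ∑ x, ent (loc W Y c t a b x))
      (fun a b => ∑ x, ent (loc W' Y c t a b x)) (Finset.univ.image c) := by
  refine ⟨pairing hK hD, split c t, split c t, fun a b => ?_, hd, hN⟩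
  rw [prod_mk_sum]
  refine Subring.sum_mem _ fun x _ => ?_
  unfold loc
  split_ifs
  · obtain ⟨γ, h1, h2⟩ := hK x (b - 2 * t x).toNat
    exact ent_mem h1 h2
  · exact ent_mem acts_zero acts_zero

end Pool.Agent.P.MP_898f40_nt.One

end
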