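import Pool.Agent.P.MP_638e8a_ag.H58Api

/-!
Bigraded complexes with a monodromy operator and a Frobenius (the first page of a weight spectral
sequence), their cohomology, the local Euler factor, weight-monodromy, and complexes built from
the cohomology of smooth projective varieties by algebraic correspondences.
-/

open Module LinearMap Polynomial
open Pool.Agent.P.MP_638e8a_ag.H58

universe u v v' w w'

namespace Pool.Agent.P.MP_898f40_nt.One

section

variable {K : Type*} [Field K] {V : Type*} [AddCommGroup V] [Module K V]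

/-- The subquotient `S / (S ∩ B)`. -/
abbrev Sq (S B : Submodule K V) := S ⧸ B.comap S.subtype

/-- The map induced on a subquotient. -/
def ind (f : End K V) {S B : Submodule K V} (hS : ∀ v ∈ S, f v ∈ S) (hB : ∀ v ∈ B, f v ∈ B) :
    End K (Sq S B) :=
  Submodule.mapQ _ _ (f.restrict hS) fun v hv => hB v hv

/-- The relation `N F = c F N` for some scalar `c`. -/
def Twist (N F : End K V) : Prop := ∃ c : K, N * F = c • (F * N)

theorem Twist.ker {N F : End K V} (h : Twist N F) : ∀ x ∈ ker N, F x ∈ ker N := by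
  obtain ⟨c, hc⟩ := h
  intro x hx
  rw [mem_ker, ← End.mul_apply, hc, LinearMap.smul_apply, End.mul_apply, mem_ker.1 hx, map_zero,
    smul_zero]

/-- The polynomial `det (1 - F T)` on the kernel of `N`. -/
noncomputable def eulerOf [FiniteDimensional K V] {N F : End K V} (h : Twist N F) : K[X] :=
  (F.restrict h.ker).charpoly.reverse

/-- The powers `N ^ r : E (-r) → E r` are bijective. -/
def PowBij (N : End K V) (E : ℤ → Submodule K V) : Prop :=
  ∀ r : ℕ, Set.BijOn (N ^ r) (E (-r)) (E r)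

/-- A differential of bidegree `(1, 0)`, a monodromy operator of bidegree `(2, -2)` and an operator
of bidegree `(0, 0)`. -/
structure Page (G : ℤ → ℤ → Submodule K V) where
  d : End K V
  N : End K V
  F : End K V
  dd : d * d = 0
  dN : d * N = N * d
  dF : d * F = F * d
  NF : Twist N F
  d_deg : ∀ a b, ∀ v ∈ G a b, d v ∈ G (a + 1) b
  N_deg : ∀ a b, ∀ v ∈ G a b, N v ∈ G (a + 2) (b - 2)
  F_deg : ∀ a b, ∀ v ∈ G a b, F v ∈ G a b

theorem map_range {d f : End K V} (h : d * f = f * d) : ∀ v ∈ range d, f v ∈ range d := by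
  rintro _ ⟨v, rfl⟩
  exact ⟨f v, LinearMap.congr_fun h v⟩

theorem map_cyc {d f : End K V} (h : d * f = f * d) (T : ℤ → Submodule K V) (c : ℤ)
    (hT : ∀ a, ∀ v ∈ T a, f v ∈ T (a + c)) : ∀ v ∈ ker d ⊓ ⨆ a, T a, f v ∈ ker d ⊓ ⨆ a, T a := by
  rintro v ⟨h1, h2⟩
  refine ⟨(LinearMap.congr_fun h v).trans ((congrArg f h1).trans (map_zero f)), ?_⟩
  have : ⨆ a, T a ≤ (⨆ a, T a).comap f :=
    iSup_le fun a v hv => Submodule.mem_iSup_of_mem (a + c) (hT a v hv)
  exact this h2

namespace Page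

variable {G : ℤ → ℤ → Submodule K V} (M : Page G)

/-- Cocycles of total degree `i`. -/
def cyc (i : ℤ) : Submodule K V := ker M.d ⊓ ⨆ a, G a (i - a)

/-- Cohomology in total degree `i`. -/
abbrev H (i : ℤ) := Sq (M.cyc i) (range M.d)

theorem N_cyc (i : ℤ) : ∀ v ∈ M.cyc i, M.N v ∈ M.cyc i :=
  map_cyc M.dN _ 2 fun a v hv => by
    rw [← sub_sub]
    exact M.N_deg _ _ v hv

theorem F_cyc (i : ℤ) : ∀ v ∈ M.cyc i, M.F v ∈ M.cyc i :=
  map_cyc M.dF _ 0 fun a v hv => by
    rw [add_zero]
    exact M.F_deg _ _ v hv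

/-- The operator `N` on cohomology. -/
def HN (i : ℤ) : End K (M.H i) := ind M.N (M.N_cyc i) (map_range M.dN)

/-- The operator `F` on cohomology. -/
def HF (i : ℤ) : End K (M.H i) := ind M.F (M.F_cyc i) (map_range M.dF)

/-- The classes of cocycles of bidegree `(a, i - a)`. -/
def E (i a : ℤ) : Submodule K (M.H i) :=
  ((G a (i - a)).comap (M.cyc i).subtype).map (Submodule.mkQ _)

/-- The dimension of cohomology in degree `i`. -/
noncomputable def betti (i : ℤ) : ℕ := finrank K (M.H i)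

/-- Weight-monodromy in degree `i`, on the second page. -/
def WM (i : ℤ) : Prop := PowBij (M.HN i) (M.E i)

theorem twist (i : ℤ) : Twist (M.HN i) (M.HF i) := by
  obtain ⟨c, hc⟩ := M.NF
  refine ⟨c, Submodule.linearMap_qext _ (LinearMap.ext fun v => ?_)⟩
  exact (congrArg (Submodule.mkQ _) (Subtype.ext (LinearMap.congr_fun hc v.1))).trans
    (map_smul (Submodule.mkQ _) c ((M.F.restrict (M.F_cyc i)) ((M.N.restrict (M.N_cyc i)) v)))

/-- The polynomial `det (1 - F T)` on the kernel of `N` in cohomology of degree `i`. -/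
noncomputable def euler [FiniteDimensional K V] (i : ℤ) : K[X] := eulerOf (M.twist i)

end Page

/-- The monodromy filtration of `N`. -/
structure IsMonFil (N : End K V) (Fil : ℤ → Submodule K V) : Prop where
  mono : Monotone Fil
  bot : ∃ s, Fil s = ⊥
  top : ∃ s, Fil s = ⊤
  map : ∀ s, ∀ v ∈ Fil s, N v ∈ Fil (s - 2)
  inj : ∀ s : ℕ, ∀ v ∈ Fil s, (N ^ s) v ∈ Fil (-s - 1) → v ∈ Fil (s - 1)
  surj : ∀ s : ℕ, ∀ x ∈ Fil (-s), ∃ v ∈ Fil s, x - (N ^ s) v ∈ Fil (-s - 1)

/-- The eigenvalues of `f` are algebraic numbers with all conjugates of absolute value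
`q ^ (m / 2)`. -/
def Pure [CharZero K] [FiniteDimensional K V] (q : ℕ) (m : ℤ) (f : End K V) : Prop :=
  ∀ μ : AlgebraicClosure K, aeval μ f.charpoly = 0 →
    IsAlgebraic ℚ μ ∧ ∀ z : ℂ, aeval z (minpoly ℚ μ) = 0 → ‖z‖ ^ 2 = (q : ℝ) ^ m

/-- The monodromy-weight assertion: `F` is pure of weight `m + s` on the `s`-th graded piece of
the monodromy filtration of `N`. -/
def MonWt [CharZero K] [FiniteDimensional K V] (q : ℕ) (m : ℤ) (N F : End K V) : Prop :=
  ∃ Fil, IsMonFil N Fil ∧ ∃ h : ∀ s, ∀ v ∈ Fil s, F v ∈ Fil s,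
    ∀ s, Pure q (m + s) (ind F (h s) (h (s - 1)))

/-- `F` is pure of weight `b` in bidegree `(a, b)`. -/
def Page.IsPure [CharZero K] [FiniteDimensional K V] {G : ℤ → ℤ → Submodule K V} (M : Page G)
    (q : ℕ) : Prop :=
  ∀ a b, Pure q b (M.F.restrict (M.F_deg a b))

/-- The monodromy-weight assertion for cohomology in degree `m`. -/
def Page.MW [CharZero K] [FiniteDimensional K V] {G : ℤ → ℤ → Submodule K V} (M : Page G)
    (q : ℕ) (m : ℤ) : Prop :=
  MonWt q m (M.HN m) (M.HF m)

end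

variable {k : Type u} [Field k] {A : Chow k} {K : Type v} [Field K] [CharZero K] {K' : Type v'}
  [Field K'] [CharZero K'] (W : Weil.{u, v, w} A K) (W' : Weil.{u, v', w'} A K') {n : ℕ}
  (Y : Fin n → SmProj k)

/-- The sum of the cohomology of the varieties `Y x`. -/
abbrev Tot : Type w := ∀ x, W.H (Y x)

noncomputable instance totGroup : AddCommGroup (Tot W Y) := Pi.addCommGroup

noncomputable instance totModule : Module K (Tot W Y) := Pi.module _ _ _

instance totFinite : Module.Finite K (Tot W Y) := Module.Finite.pi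

/-- The bigrading: `H^j (Y x)` sits in bidegree `(c x, j + 2 t x)`. -/
noncomputable def grade (c t : Fin n → ℤ) (a b : ℤ) : Submodule K (Tot W Y) :=
  Submodule.pi Set.univ fun x => ⨆ (j : ℕ) (_ : c x = a ∧ j + 2 * t x = b), W.deg (Y x) j

/-- The matrix of correspondences `Γ` acts as `T`. -/
def MActs (Γ : ∀ x y, A.CH ((Y x).prod (Y y))) (T : End K (Tot W Y)) : Prop :=
  ∃ S : ∀ x y, W.H (Y x) →ₗ[K] W.H (Y y),
    (∀ x y, W.Acts (Γ x y) (S x y)) ∧ ∀ v y, T v y = ∑ x, S x y (v x)

/-- The operators `T` and `T'` are induced by one matrix of correspondences. -/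
def Alg (T : End K (Tot W Y)) (T' : End K' (Tot W' Y)) : Prop :=
  ∃ Γ, MActs W Y Γ T ∧ MActs W' Y Γ T'

/-- The Kuenneth projectors of `X` for the two theories are induced by the same cycles. -/
def Kunneth (X : SmProj k) : Prop :=
  ∀ j, ∃ γ, W.Acts γ (GradedAlgebra.proj (W.deg X) j) ∧ W'.Acts γ (GradedAlgebra.proj (W'.deg X) j)

/-- Numerically trivial cycles on `X` are homologically trivial. -/
def HomNum (X : SmProj k) : Prop :=
  ∀ γ : A.CH X, (∀ δ, A.push (SmProj.toPt X) (γ * δ) = 0) → W.cl X γ = 0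

end Pool.Agent.P.MP_898f40_nt.One
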