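import Pool.Agent.P.MP_898f40_nt.OneCore
import Pool.Agent.P.MP_898f40_nt.OneDefs

/-!
Bigraded complexes with their projectors; transfer of weight-monodromy and of the Euler factor
from the numerically faithful realisation.
-/

section

open Module LinearMap Polynomial

set_option linter.unusedSectionVars false

namespace Pool.Agent.P.MP_898f40_nt.One

variable {K V : Type*} [Field K] [AddCommGroup V] [Module K V] [FiniteDimensional K V]

/-- Projectors of a bigrading with finitely many columns. -/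
structure Split (G : ℤ → ℤ → Submodule K V) (p : ℤ → ℤ → End K V) (s : Finset ℤ) : Prop where
  proj : ∀ a b, IsProj (G a b) (p a b)
  orth : ∀ a b a' b', a ≠ a' ∨ b ≠ b' → ∀ v ∈ G a' b', p a b v = 0
  top : ⨆ a, ⨆ b, G a b = ⊤
  fin : ∀ a ∉ s, ∀ b, G a b = ⊥

theorem range_mul_proj {S : Submodule K V} {e : End K V} (he : IsProj S e) (x : End K V) :
    range (x * e) = S.map x := by
  rw [End.mul_eq_comp, range_comp, he.range]

theorem finrank_Sq (S B : Submodule K V) :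
    finrank K (Sq S B) + finrank K (S ⊓ B :) = finrank K S := by
  rw [← Submodule.finrank_quotient_add_finrank (B.comap S.subtype), ← Submodule.map_comap_subtype,
    Submodule.finrank_map_subtype_eq]

theorem ind_mk (f : End K V) {S B : Submodule K V} (hS : ∀ v ∈ S, f v ∈ S)
    (hB : ∀ v ∈ B, f v ∈ B) (v : S) :
    ind f hS hB (Submodule.Quotient.mk v) = Submodule.Quotient.mk ⟨f v, hS v v.2⟩ := rfl

theorem ind_pow_mk (f : End K V) {S B : Submodule K V} (hS : ∀ v ∈ S, f v ∈ S)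
    (hB : ∀ v ∈ B, f v ∈ B) (r : ℕ) (v : S) :
    (ind f hS hB ^ r) (Submodule.Quotient.mk v) =
      Submodule.Quotient.mk ⟨(f ^ r) v, Module.End.pow_apply_mem_of_forall_mem r hS v v.2⟩ := by
  induction r with
  | zero => rfl
  | succ r ih =>
    rw [pow_succ', End.mul_apply, ih, ind_mk]
    congr 2
    rw [pow_succ', End.mul_apply]

namespace Split

variable {G : ℤ → ℤ → Submodule K V} {p : ℤ → ℤ → End K V} {s : Finset ℤ} (h : Split G p s)
include h

theorem ext {f g : End K V} (hfg : ∀ a b, ∀ v ∈ G a b, f v = g v) : f = g := by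
  rw [← eqLocus_eq_top, eq_top_iff, ← h.top]
  exact iSup_le fun a => iSup_le fun b v hv => hfg a b v hv

theorem comm {f : End K V} {α β : ℤ} (hf : ∀ a b, ∀ v ∈ G a b, f v ∈ G (a + α) (b + β))
    (a b : ℤ) : p (a + α) (b + β) * f = f * p a b := by
  refine h.ext fun a' b' v hv => ?_
  by_cases hab : a ≠ a' ∨ b ≠ b'
  · rw [End.mul_apply, End.mul_apply, h.orth a b a' b' hab v hv, map_zero,
      h.orth _ _ _ _ (by omega) _ (hf a' b' v hv)]
  · obtain ⟨rfl, rfl⟩ : a = a' ∧ b = b' := by omega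
    rw [End.mul_apply, End.mul_apply, (h.proj a b).map_id v hv,
      (h.proj _ _).map_id _ (hf a b v hv)]

theorem tot (i : ℤ) : IsProj (⨆ a, G a (i - a)) (∑ a ∈ s, p a (i - a)) := by
  refine ⟨fun v => ?_, fun v hv => ?_⟩
  · rw [LinearMap.sum_apply]
    exact Submodule.sum_mem _ fun a _ => Submodule.mem_iSup_of_mem a ((h.proj _ _).map_mem v)
  · have : ⨆ a, G a (i - a) ≤ eqLocus (∑ a ∈ s, p a (i - a)) LinearMap.id := by
      refine iSup_le fun a v hv => ?_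
      change (∑ a ∈ s, p a (i - a)) v = v
      by_cases ha : a ∈ s
      · rw [LinearMap.sum_apply, Finset.sum_eq_single_of_mem a ha
          fun a' _ ha' => h.orth _ _ _ _ (Or.inl ha') v hv, (h.proj _ _).map_id v hv]
      · rw [h.fin a ha, Submodule.mem_bot] at hv
        rw [hv, map_zero]
    exact this hv

theorem orth_tot {i a b : ℤ} (hi : a + b ≠ i) {v : V} (hv : v ∈ ⨆ a, G a (i - a)) :
    p a b v = 0 := by
  have : ⨆ a, G a (i - a) ≤ ker (p a b) :=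
    iSup_le fun a' v hv => h.orth _ _ _ _ (by omega) v hv
  exact this hv

theorem tot_orth {i j : ℤ} (hi : j ≠ i) {v : V} (hv : v ∈ ⨆ a, G a (i - a)) :
    (∑ a ∈ s, p a (j - a)) v = 0 := by
  rw [LinearMap.sum_apply]
  exact Finset.sum_eq_zero fun a _ => h.orth_tot (by omega) hv

end Split

namespace Page

variable {G : ℤ → ℤ → Submodule K V} (M : Page G) {p : ℤ → ℤ → End K V} {s : Finset ℤ}

/-- Cocycles of bidegree `(a, i - a)`. -/
def Za (i a : ℤ) : Submodule K V := ker M.d ⊓ G a (i - a)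

/-- Coboundaries of bidegree `(a, i - a)`. -/
def Ba (i a : ℤ) : Submodule K V := range M.d ⊓ G a (i - a)

/-- Coboundaries of degree `i`. -/
def Bd (i : ℤ) : Submodule K V := range M.d ⊓ ⨆ a, G a (i - a)

theorem range_le_ker : range M.d ≤ ker M.d := range_le_ker_iff.2 M.dd

theorem Ba_le (i a : ℤ) : M.Ba i a ≤ M.Za i a := inf_le_inf_right _ M.range_le_ker

theorem Bd_le (i : ℤ) : M.Bd i ≤ M.cyc i := inf_le_inf_right _ M.range_le_ker

theorem Za_le (i a : ℤ) : M.Za i a ≤ M.cyc i :=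
  inf_le_inf_left _ (le_iSup (fun a => G a (i - a)) a)

theorem cyc_inf (i : ℤ) : M.cyc i ⊓ range M.d = M.Bd i :=
  le_antisymm (fun _ hv => ⟨hv.2, hv.1.2⟩) fun _ hv => ⟨M.Bd_le i hv, hv.1⟩

theorem pd (h : Split G p s) (a b : ℤ) : p (a + 1) b * M.d = M.d * p a b := by
  have := h.comm (f := M.d) (α := 1) (β := 0) (fun a b v hv => by
    rw [add_zero]
    exact M.d_deg a b v hv) a b
  rwa [add_zero] at this

theorem pN (h : Split G p s) (a b : ℤ) : p (a + 2) (b - 2) * M.N = M.N * p a b :=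
  h.comm (f := M.N) (α := 2) (β := -2) M.N_deg a b

theorem p_ker (h : Split G p s) (a b : ℤ) : ∀ v ∈ ker M.d, p a b v ∈ ker M.d := fun v hv => by
  rw [mem_ker, ← End.mul_apply, ← M.pd h, End.mul_apply, mem_ker.1 hv, map_zero]

theorem p_range (h : Split G p s) (a b : ℤ) : ∀ v ∈ range M.d, p a b v ∈ range M.d := by
  rintro _ ⟨v, rfl⟩
  refine ⟨p (a - 1) b v, ?_⟩
  rw [← End.mul_apply, ← M.pd h, sub_add_cancel, End.mul_apply]

theorem map_tot (h : Split G p s) (i : ℤ) : (⨆ a, G a (i - 1 - a)).map M.d = M.Bd i := by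
  have h1 : ∀ j, (⨆ a, G a (j - 1 - a)) ≤ (⨆ a, G a (j - a)).comap M.d := fun j =>
    iSup_le fun a v hv => Submodule.mem_iSup_of_mem (a + 1) (by
      rw [show j - (a + 1) = j - 1 - a by ring]
      exact M.d_deg _ _ v hv)
  refine le_antisymm ?_ ?_
  · rintro _ ⟨v, hv, rfl⟩
    exact ⟨⟨v, rfl⟩, h1 i hv⟩
  · rintro _ ⟨⟨v, rfl⟩, hv⟩
    refine ⟨_, (h.tot (i - 1)).map_mem v, ?_⟩
    have h2 : M.d * ∑ a ∈ s, p a (i - 1 - a) = (∑ a ∈ s, p a (i - a)) * M.d := by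
      refine h.ext fun a b w hw => ?_
      have h3 : w ∈ ⨆ a', G a' (a + b + 1 - 1 - a') :=
        Submodule.mem_iSup_of_mem a (by rwa [show a + b + 1 - 1 - a = b by ring])
      by_cases hi : a + b + 1 = i
      · subst hi
        rw [End.mul_apply, End.mul_apply, (h.tot _).map_id w h3, (h.tot _).map_id _ (h1 _ h3)]
      · rw [End.mul_apply, End.mul_apply, h.tot_orth (by omega) h3, map_zero,
          h.tot_orth (by omega) (h1 _ h3)]
    rw [← End.mul_apply, h2, End.mul_apply, (h.tot i).map_id _ hv]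

theorem Npow_deg (r : ℕ) (a b : ℤ) : ∀ v ∈ G a b, (M.N ^ r) v ∈ G (a + 2 * r) (b - 2 * r) := by
  induction r with
  | zero => simp
  | succ r ih =>
    intro v hv
    rw [pow_succ', End.mul_apply, show a + 2 * (r + 1 : ℕ) = a + 2 * r + 2 by push_cast; ring,
      show b - 2 * (r + 1 : ℕ) = b - 2 * r - 2 by push_cast; ring]
    exact M.N_deg _ _ _ (ih v hv)

theorem dNpow (r : ℕ) : M.d * M.N ^ r = M.N ^ r * M.d := (Commute.pow_right M.dN r).eq

theorem Npow_ker (r : ℕ) : ∀ v ∈ ker M.d, (M.N ^ r) v ∈ ker M.d := fun v hv => by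
  rw [mem_ker, ← End.mul_apply, M.dNpow, End.mul_apply, mem_ker.1 hv, map_zero]

theorem Npow_Za (r : ℕ) {i a a' : ℤ} (ha : a' = a + 2 * r) :
    ∀ v ∈ M.Za i a, (M.N ^ r) v ∈ M.Za i a' := fun v hv =>
  ⟨M.Npow_ker r v hv.1, by
    rw [ha, ← sub_sub]
    exact M.Npow_deg r _ _ v hv.2⟩

theorem Npow_Ba (r : ℕ) {i a a' : ℤ} (ha : a' = a + 2 * r) :
    ∀ v ∈ M.Ba i a, (M.N ^ r) v ∈ M.Ba i a' := fun v hv =>
  ⟨map_range (M.dNpow r) v hv.1, (M.Npow_Za r ha v (M.Ba_le i a hv)).2⟩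

theorem mem_E {i a : ℤ} {x : M.H i} :
    x ∈ M.E i a ↔ ∃ v, ∃ hv : v ∈ M.Za i a, Submodule.Quotient.mk ⟨v, M.Za_le i a hv⟩ = x :=
  ⟨fun ⟨v, hv, h⟩ => ⟨v.1, ⟨v.2.1, hv⟩, h⟩, fun ⟨v, hv, h⟩ => ⟨⟨v, M.Za_le i a hv⟩, hv.2, h⟩⟩

theorem wm_iff (i : ℤ) : M.WM i ↔ ∀ r : ℕ,
    M.Za i (-r) ⊓ (M.Ba i r).comap (M.N ^ r) ≤ M.Ba i (-r) ∧
      M.Za i r ≤ (M.Za i (-r)).map (M.N ^ r) ⊔ M.Ba i r := by
  refine forall_congr' fun r => ?_
  have hr : (r : ℤ) = -r + 2 * r := by ring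
  constructor
  · rintro ⟨-, h1, h2⟩
    refine ⟨fun v hv => ⟨?_, hv.1.2⟩, fun v hv => ?_⟩
    · have := h1 (M.mem_E.2 ⟨v, hv.1, rfl⟩) (zero_mem _) (by
        rw [map_zero, HN, ind_pow_mk, Submodule.Quotient.mk_eq_zero]
        exact hv.2.1)
      exact (Submodule.Quotient.mk_eq_zero ((range M.d).comap (M.cyc i).subtype)).1 this
    · obtain ⟨x, hx, h3⟩ := h2 (M.mem_E.2 ⟨v, hv, rfl⟩)
      obtain ⟨u, hu, rfl⟩ := M.mem_E.1 hx
      rw [HN, ind_pow_mk, eq_comm, Submodule.Quotient.eq] at h3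
      rw [← add_sub_cancel ((M.N ^ r) u) v]
      exact Submodule.add_mem_sup ⟨u, hu, rfl⟩ ⟨h3, sub_mem hv.2 (M.Npow_Za r hr u hu).2⟩
  · rintro ⟨h1, h2⟩
    refine ⟨fun x hx => ?_, ?_, fun x hx => ?_⟩
    · obtain ⟨u, hu, rfl⟩ := M.mem_E.1 hx
      rw [HN, ind_pow_mk]
      exact M.mem_E.2 ⟨_, M.Npow_Za r hr u hu, rfl⟩
    · rw [← LinearMap.disjoint_ker_iff_injOn, LinearMap.disjoint_ker]
      intro x hx h3
      obtain ⟨u, hu, rfl⟩ := M.mem_E.1 hx
      rw [HN, ind_pow_mk, Submodule.Quotient.mk_eq_zero] at h3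
      rw [Submodule.Quotient.mk_eq_zero]
      exact (h1 ⟨hu, h3, (M.Npow_Za r hr u hu).2⟩).1
    · obtain ⟨v, hv, rfl⟩ := M.mem_E.1 hx
      obtain ⟨_, ⟨u, hu, rfl⟩, b, hb, rfl⟩ := Submodule.mem_sup.1 (h2 hv)
      refine ⟨_, M.mem_E.2 ⟨u, hu, rfl⟩, ?_⟩
      rw [HN, ind_pow_mk, eq_comm, Submodule.Quotient.eq]
      change (M.N ^ r) u + b - (M.N ^ r) u ∈ range M.d
      rw [add_sub_cancel_left]
      exact hb.1

/-- Under weight-monodromy each step of `N` is injective or surjective. -/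
theorem wm_step {i : ℤ} (h : M.WM i) (a : ℤ) :
    M.Za i a ⊓ (M.Ba i (a + 2)).comap M.N ≤ M.Ba i a ∨
      M.Za i (a + 2) ≤ (M.Za i a).map M.N ⊔ M.Ba i (a + 2) := by
  rw [wm_iff] at h
  rcases lt_or_ge a 0 with ha | ha
  · obtain ⟨r, rfl⟩ : ∃ r : ℕ, a = -((r + 1 : ℕ) : ℤ) := ⟨(-a - 1).toNat, by omega⟩
    refine Or.inl fun v hv => (h (r + 1)).1 ⟨hv.1, ?_⟩
    change (M.N ^ (r + 1)) v ∈ M.Ba i (r + 1 : ℕ)
    rw [pow_succ, End.mul_apply]
    exact M.Npow_Ba r (by push_cast; ring) _ hv.2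
  · obtain ⟨r, hr⟩ : ∃ r : ℕ, a + 2 = ((r + 1 : ℕ) : ℤ) := ⟨(a + 1).toNat, by omega⟩
    rw [hr]
    refine Or.inr ((h (r + 1)).2.trans (sup_le_sup_right ?_ _))
    rintro _ ⟨v, hv, rfl⟩
    rw [pow_succ', End.mul_apply]
    exact ⟨_, M.Npow_Za r (by push_cast at hr ⊢; omega) v hv, rfl⟩

/-- Cocycles whose class is killed by `N`. -/
def Kn (i : ℤ) : Submodule K V := M.cyc i ⊓ (M.Bd i).comap M.N

theorem F_Bd (i : ℤ) : ∀ v ∈ M.Bd i, M.F v ∈ M.Bd i := fun v hv =>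
  ⟨map_range M.dF v hv.1, (M.F_cyc i v (M.Bd_le i hv)).2⟩

theorem N_Bd (i : ℤ) : ∀ v ∈ M.Bd i, M.N v ∈ M.Bd i := fun v hv =>
  ⟨map_range M.dN v hv.1, (M.N_cyc i v (M.Bd_le i hv)).2⟩

theorem F_Kn (i : ℤ) : ∀ v ∈ M.Kn i, M.F v ∈ M.Kn i := fun v hv => by
  obtain ⟨c, hc⟩ := M.NF
  refine ⟨M.F_cyc i v hv.1, ?_⟩
  change (M.N * M.F) v ∈ M.Bd i
  rw [hc]
  exact Submodule.smul_mem _ c (M.F_Bd i _ hv.2)

theorem Bd_le_Kn (i : ℤ) : M.Bd i ≤ M.Kn i := fun v hv => ⟨M.Bd_le i hv, M.N_Bd i v hv⟩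

theorem charpoly_Kn (i : ℤ) : (M.F.restrict (M.F_Kn i)).charpoly =
    (M.F.restrict (M.F_Bd i)).charpoly * ((M.HF i).restrict (M.twist i).ker).charpoly := by
  let π : M.Kn i →ₗ[K] ker (M.HN i) :=
    ((Submodule.mkQ _) ∘ₗ Submodule.inclusion (inf_le_left : M.Kn i ≤ M.cyc i)).codRestrict _
      fun v => (Submodule.Quotient.mk_eq_zero _).2 v.2.2.1
  refine charpoly_exact _ _ _ (Submodule.inclusion (M.Bd_le_Kn i)) π
    (Submodule.inclusion_injective _) ?_ ?_ (fun _ => rfl) fun _ => rfl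
  · rintro ⟨x, hx⟩
    induction x using Submodule.Quotient.induction_on with
    | H v =>
      exact ⟨⟨v.1, v.2, (Submodule.Quotient.mk_eq_zero ((range M.d).comap (M.cyc i).subtype)).1 hx,
        (M.N_cyc i v v.2).2⟩, rfl⟩
  · ext v
    constructor
    · rintro ⟨u, rfl⟩
      exact Subtype.ext ((Submodule.Quotient.mk_eq_zero _).2 u.2.1)
    · intro hv
      exact ⟨⟨v.1, (Submodule.Quotient.mk_eq_zero ((range M.d).comap (M.cyc i).subtype)).1
        (congrArg Subtype.val hv), v.2.1.2⟩, rfl⟩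

theorem isProj_Kn (h : Split G p s) (i : ℤ) (κ : ℤ → End K V)
    (hκ : ∀ a, IsProj (M.Za i a ⊓ (M.Ba i (a + 2)).comap M.N) (κ a)) :
    IsProj (M.Kn i) (∑ a ∈ s, κ a * p a (i - a)) := by
  refine ⟨fun v => ?_, fun v hv => ?_⟩
  · rw [LinearMap.sum_apply]
    refine Submodule.sum_mem _ fun a _ => ?_
    have := (hκ a).map_mem (p a (i - a) v)
    exact ⟨M.Za_le i a this.1, this.2.1, (M.N_cyc i _ (M.Za_le i a this.1)).2⟩
  · conv_rhs => rw [← (h.tot i).map_id v hv.1.2]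
    rw [LinearMap.sum_apply, LinearMap.sum_apply]
    refine Finset.sum_congr rfl fun a _ => (hκ a).map_id _ ⟨⟨M.p_ker h _ _ v hv.1.1,
      (h.proj _ _).map_mem v⟩, ?_⟩
    change (M.N * p a (i - a)) v ∈ M.Ba i (a + 2)
    rw [← M.pN h, sub_sub]
    exact ⟨M.p_range h _ _ _ hv.2.1, (h.proj _ _).map_mem _⟩

end Page

end Pool.Agent.P.MP_898f40_nt.One

end

section

open Module LinearMap Polynomial

set_option linter.unusedSectionVars false

namespace Pool.Agent.P.MP_898f40_nt.One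

variable {K K' V V' : Type*} [Field K] [CharZero K] [Field K'] [CharZero K'] [AddCommGroup V]
  [Module K V] [FiniteDimensional K V] [AddCommGroup V'] [Module K' V'] [FiniteDimensional K' V']
  {R : Subring (End K V × End K' V')}

theorem proj_ker_mul {T : Submodule K V} {t : End K V} (ht : IsProj T t) (d : End K V) :
    ∀ v ∈ ker (d * t), t v ∈ ker (d * t) := fun v hv => by
  rw [mem_ker, End.mul_apply, ht.map_id _ (ht.map_mem v)]
  exact hv

theorem ker_mul_inf {T : Submodule K V} {t : End K V} (ht : IsProj T t) (d : End K V) :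
    ker (d * t) ⊓ T = ker d ⊓ T :=
  Submodule.ext fun v => and_congr_left fun hv => by
    rw [SetLike.mem_coe, SetLike.mem_coe, mem_ker, mem_ker, End.mul_apply, ht.map_id v hv]

theorem map_reverse_int (P : ℤ[X]) : (P.reverse).map (Int.castRingHom K) =
    ((P.map (algebraMap ℤ ℚ)).map (algebraMap ℚ K)).reverse := by
  rw [Polynomial.map_map, reverse, reverse, ← reflect_map,
    natDegree_map_eq_of_injective (RingHom.injective_int _)]
  congr 2
  exact Subsingleton.elim _ _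

namespace Pairing

variable (hR : Pairing R) {S B T C : Submodule K V} {S' B' T' C' : Submodule K' V'}
  {u : End K V} {u' : End K' V'}
include hR

theorem map_le (hS : Good R S S') (hx : (u, u') ∈ R) :
    finrank K (S.map u) ≤ finrank K' (S'.map u') := by
  obtain ⟨e, he, e1, e2⟩ := hS
  have hm : (u * e.1, u' * e.2) ∈ R := R.mul_mem hx he
  rw [← range_mul_proj e1, ← range_mul_proj e2]
  exact hR.rank_le hm

theorem good_map (hS : Good R S S') (hx : (u, u') ∈ R)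
    (h : finrank K' (S'.map u') ≤ finrank K (S.map u)) :
    Good R (S.map u) (S'.map u') ∧ Good R (ker u ⊓ S) (ker u' ⊓ S') := by
  obtain ⟨e, he, e1, e2⟩ := hS
  have hm : (u * e.1, u' * e.2) ∈ R := R.mul_mem hx he
  rw [← range_mul_proj e1, ← range_mul_proj e2] at h ⊢
  rw [← ker_mul_inf e1, ← ker_mul_inf e2]
  exact ⟨hR.good_range hm h, (hR.good_ker hm h).inf he e1 e2
    (proj_ker_mul e1 _) (proj_ker_mul e2 _)⟩

theorem inj_tr (hS : Good R S S') (hB : Good R B B') (hC : Good R C C')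
    (hx : (u, u') ∈ R)
    (h1 : B' ≤ S' ⊓ C'.comap u') (h : S ⊓ C.comap u ≤ B) : S' ⊓ C'.comap u' ≤ B' := by
  have h2 := hR.rel_le hS hC hx
  have h3 := Submodule.finrank_mono h
  have h4 := hR.good_finrank hB
  exact (Submodule.eq_of_le_of_finrank_le h1 (by omega)).ge

theorem surj_tr (hS : Good R S S') (hT : Good R T T') (hC : Good R C C')
    (hx : (u, u') ∈ R)
    (h1 : S'.map u' ⊔ C' ≤ T') (h : T ≤ S.map u ⊔ C) : T' ≤ S'.map u' ⊔ C' := by
  have h2 := hR.rel_le hS hC hx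
  have h3 := Submodule.finrank_mono h
  have h4 := hR.good_finrank hS
  have h5 := hR.good_finrank hT
  have h6 := hR.good_finrank hC
  have h7 := finrank_rel u S C
  have h8 := finrank_rel u' S' C'
  exact (Submodule.eq_of_le_of_finrank_le h1 (by omega)).ge

theorem ker_good (hS : Good R S S') (hB : Good R B B') (hT : Good R T T') (hC : Good R C C')
   
    (hx : (u, u') ∈ R) (h1 : B' ≤ S' ⊓ C'.comap u') (h2 : S'.map u' ⊔ C' ≤ T')
    (h : S ⊓ C.comap u ≤ B ∨ T ≤ S.map u ⊔ C) :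
    Good R (S ⊓ C.comap u) (S' ⊓ C'.comap u') := by
  refine hR.rel_good hS hC hx ?_
  rcases h with h | h
  · exact (Submodule.finrank_mono h).trans
      ((hR.good_finrank hB).le.trans (Submodule.finrank_mono h1))
  · have h3 := Submodule.finrank_mono h
    have h4 := hR.good_finrank hS
    have h5 := hR.good_finrank hT
    have h6 := hR.good_finrank hC
    have h7 := finrank_rel u S C
    have h8 := finrank_rel u' S' C'
    have h9 := Submodule.finrank_mono h2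
    omega

theorem chi_eq (hx : (u, u') ∈ R) (h : Good R S S') (hS : ∀ v ∈ S, u v ∈ S)
    (hS' : ∀ v ∈ S', u' v ∈ S') {P : ℚ[X]}
    (h1 : (u.restrict hS).charpoly = P.map (algebraMap ℚ K)) :
    (u'.restrict hS').charpoly = P.map (algebraMap ℚ K') := by
  obtain ⟨Q, h2, h3⟩ := hR.chi hx h le_rfl hS hS'
  obtain rfl : P = Q := Polynomial.map_injective _ (algebraMap ℚ K).injective (h1.symm.trans h2)
  have h4 : P.Monic := monic_of_injective (algebraMap ℚ K).injective (h1 ▸ charpoly_monic _)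
  refine (eq_of_monic_of_dvd_of_natDegree_le (charpoly_monic _) (h4.map _) h3 ?_).symm
  rw [natDegree_map, charpoly_natDegree, ← hR.good_finrank h, ← charpoly_natDegree (u.restrict hS),
    h1, natDegree_map]

end Pairing

/-- Two complexes whose structure operators are paired in the ring. -/
structure Setup (R : Subring (End K V × End K' V')) {G : ℤ → ℤ → Submodule K V}
    {G' : ℤ → ℤ → Submodule K' V'} (M : Page G) (M' : Page G') (p : ℤ → ℤ → End K V)
    (p' : ℤ → ℤ → End K' V') (s : Finset ℤ) : Prop where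
  pair : Pairing R
  sp : Split G p s
  sp' : Split G' p' s
  pm : ∀ a b, (p a b, p' a b) ∈ R
  dm : (M.d, M'.d) ∈ R
  Nm : (M.N, M'.N) ∈ R

namespace Setup

variable {G : ℤ → ℤ → Submodule K V} {G' : ℤ → ℤ → Submodule K' V'} {M : Page G} {M' : Page G'}
  {p : ℤ → ℤ → End K V} {p' : ℤ → ℤ → End K' V'} {s : Finset ℤ} (h : Setup R M M' p p' s)
  {i : ℤ}
include h

theorem tot_mem (j : ℤ) : (∑ a ∈ s, p a (j - a), ∑ a ∈ s, p' a (j - a)) ∈ R := by
  rw [prod_mk_sum]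
  exact R.sum_mem fun a _ => h.pm _ _

theorem good_BZ (hb : finrank K (M.H i) ≤ finrank K' (M'.H i)) :
    Good R (M.Bd i) (M'.Bd i) ∧ Good R (M.cyc i) (M'.cyc i) := by
  have gT : ∀ j, Good R (⨆ a, G a (j - a)) (⨆ a, G' a (j - a)) := fun j =>
    ⟨_, h.tot_mem j, h.sp.tot j, h.sp'.tot j⟩
  have r0 := h.pair.map_le (gT (i - 1)) h.dm
  have r1 := h.pair.map_le (gT i) h.dm
  have g0 := h.pair.good_map (gT (i - 1)) h.dm
  have g1 := h.pair.good_map (gT i) h.dm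
  have g2 := h.pair.good_finrank (gT i)
  rw [M.map_tot h.sp, M'.map_tot h.sp'] at r0 g0
  have a1 := finrank_map_add M.d (⨆ a, G a (i - a))
  have a2 := finrank_map_add M'.d (⨆ a, G' a (i - a))
  rw [inf_comm] at a1 a2
  have b1 := finrank_Sq (M.cyc i) (range M.d)
  have b2 := finrank_Sq (M'.cyc i) (range M'.d)
  rw [Page.cyc_inf] at b1 b2
  change _ + finrank K (M.cyc i) = _ at a1
  change _ + finrank K' (M'.cyc i) = _ at a2
  change finrank K (M.H i) + _ = _ at b1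
  change finrank K' (M'.H i) + _ = _ at b2
  exact ⟨(g0 (by omega)).1, (g1 (by omega)).2⟩

theorem good_Za (hb : finrank K (M.H i) ≤ finrank K' (M'.H i)) (a : ℤ) :
    Good R (M.Za i a) (M'.Za i a) := by
  have := (h.good_BZ hb).2.inf (h.pm a (i - a)) (h.sp.proj _ _) (h.sp'.proj _ _)
    (fun v hv => M.Za_le i a ⟨M.p_ker h.sp _ _ v hv.1, (h.sp.proj _ _).map_mem v⟩)
    (fun v hv => M'.Za_le i a ⟨M'.p_ker h.sp' _ _ v hv.1, (h.sp'.proj _ _).map_mem v⟩)
  rwa [Page.cyc, Page.cyc, inf_assoc, inf_assoc,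
    inf_eq_right.2 (le_iSup (fun a => G a (i - a)) a),
    inf_eq_right.2 (le_iSup (fun a => G' a (i - a)) a)] at this

theorem good_Ba (hb : finrank K (M.H i) ≤ finrank K' (M'.H i)) (a : ℤ) :
    Good R (M.Ba i a) (M'.Ba i a) := by
  have := (h.good_BZ hb).1.inf (h.pm a (i - a)) (h.sp.proj _ _) (h.sp'.proj _ _)
    (fun v hv => ⟨M.p_range h.sp _ _ v hv.1,
      Submodule.mem_iSup_of_mem a ((h.sp.proj _ _).map_mem v)⟩)
    (fun v hv => ⟨M'.p_range h.sp' _ _ v hv.1,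
      Submodule.mem_iSup_of_mem a ((h.sp'.proj _ _).map_mem v)⟩)
  rwa [Page.Bd, Page.Bd, inf_assoc, inf_assoc,
    inf_eq_right.2 (le_iSup (fun a => G a (i - a)) a),
    inf_eq_right.2 (le_iSup (fun a => G' a (i - a)) a)] at this

theorem wm (hb : finrank K (M.H i) ≤ finrank K' (M'.H i)) (hw : M.WM i) : M'.WM i := by
  rw [Page.wm_iff] at hw ⊢
  intro r
  have hr : (r : ℤ) = -r + 2 * r := by ring
  have hx : (M.N ^ r, M'.N ^ r) ∈ R := by
    rw [← Prod.pow_mk]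
    exact R.pow_mem h.Nm r
  refine ⟨h.pair.inj_tr (h.good_Za hb _) (h.good_Ba hb _) (h.good_Ba hb _) hx
    (fun v hv => ⟨M'.Ba_le _ _ hv, M'.Npow_Ba r hr v hv⟩) (hw r).1,
    h.pair.surj_tr (h.good_Za hb _) (h.good_Za hb _) (h.good_Ba hb _) hx
    (sup_le ?_ (M'.Ba_le _ _)) (hw r).2⟩
  rintro _ ⟨v, hv, rfl⟩
  exact M'.Npow_Za r hr v hv

theorem good_Kn (hb : finrank K (M.H i) ≤ finrank K' (M'.H i)) (hw : M.WM i) :
    Good R (M.Kn i) (M'.Kn i) := by
  have : ∀ a, Good R (M.Za i a ⊓ (M.Ba i (a + 2)).comap M.N)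
      (M'.Za i a ⊓ (M'.Ba i (a + 2)).comap M'.N) := fun a => by
    refine h.pair.ker_good (h.good_Za hb a) (h.good_Ba hb a)
      (h.good_Za hb (a + 2)) (h.good_Ba hb (a + 2)) h.Nm
      (fun v hv => ⟨M'.Ba_le _ _ hv, ?_⟩) (sup_le ?_ (M'.Ba_le _ _)) (M.wm_step hw a)
    · simpa using M'.Npow_Ba 1 (a' := a + 2) (by simp) v hv
    · rintro _ ⟨v, hv, rfl⟩
      simpa using M'.Npow_Za 1 (a' := a + 2) (by simp) v hv
  choose κ hκ h1 h2 using this
  refine ⟨(∑ a ∈ s, (κ a).1 * p a (i - a), ∑ a ∈ s, (κ a).2 * p' a (i - a)), ?_,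
    M.isProj_Kn h.sp i _ h1, M'.isProj_Kn h.sp' i _ h2⟩
  rw [prod_mk_sum]
  exact R.sum_mem fun a _ => R.mul_mem (hκ a) (h.pm _ _)

theorem euler (hF : (M.F, M'.F) ∈ R) (hb : finrank K (M.H i) ≤ finrank K' (M'.H i))
    (hI : IsIntegral ℤ M.F) : ∃ P : ℤ[X], M.euler i = P.map (Int.castRingHom K) ∧
      M'.euler i ∣ P.map (Int.castRingHom K') ∧
      (M.WM i → M'.euler i = P.map (Int.castRingHom K')) := by
  obtain ⟨gB, gZ⟩ := h.good_BZ hb
  obtain ⟨T, hT, gK⟩ := h.pair.rel gZ gB h.Nm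
  obtain ⟨PK, k1, k2⟩ := h.pair.chi hF gK hT (M.F_Kn i) (M'.F_Kn i)
  obtain ⟨PB, b1, -⟩ := h.pair.chi hF gB le_rfl (M.F_Bd i) (M'.F_Bd i)
  have b2 := h.pair.chi_eq hF gB (M.F_Bd i) (M'.F_Bd i) b1
  have e1 : PK.map (algebraMap ℚ K) = PB.map (algebraMap ℚ K) * _ :=
    k1.symm.trans ((M.charpoly_Kn i).trans (congrArg (· * _) b1))
  have e2 : (M'.F.restrict (M'.F_Kn i)).charpoly = PB.map (algebraMap ℚ K') * _ :=
    (M'.charpoly_Kn i).trans (congrArg (· * _) b2)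
  obtain ⟨Q, rfl⟩ := (map_dvd_map' (algebraMap ℚ K)).1 ⟨_, e1⟩
  have n1 : PB.map (algebraMap ℚ K) ≠ 0 := b1 ▸ (charpoly_monic _).ne_zero
  have n2 : PB.map (algebraMap ℚ K') ≠ 0 := b2 ▸ (charpoly_monic _).ne_zero
  rw [Polynomial.map_mul, mul_right_inj' n1] at e1
  have hQ : Q.Monic := monic_of_injective (algebraMap ℚ K).injective (e1 ▸ charpoly_monic _)
  obtain ⟨P, rfl⟩ := gauss M.F hI Q hQ (by
    refine Dvd.dvd.trans ?_ (charpoly_dvd (M.F.restrict (M.F_Kn i)) M.F (M.Kn i).subtype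
      (Submodule.subtype_injective _) fun _ => rfl)
    rw [M.charpoly_Kn, e1]
    exact dvd_mul_left _ _)
  refine ⟨P.reverse, ?_, ?_, fun hw => ?_⟩
  · rw [map_reverse_int, e1, Page.euler, eulerOf]
  · have : (M'.F.restrict (M'.F_Kn i)).charpoly ∣ _ := k2
    rw [e2, Polynomial.map_mul, mul_dvd_mul_iff_left n2] at this
    obtain ⟨U, hU⟩ := this
    rw [map_reverse_int, hU, reverse_mul_of_domain]
    exact dvd_mul_right _ _
  · have : (M'.F.restrict (M'.F_Kn i)).charpoly = _ :=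
      h.pair.chi_eq hF (h.good_Kn hb hw) (M.F_Kn i) (M'.F_Kn i) k1
    rw [e2, Polynomial.map_mul, mul_right_inj' n2] at this
    rw [map_reverse_int, ← this, Page.euler, eulerOf]

end Setup

end Pool.Agent.P.MP_898f40_nt.One

end
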