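import Pool.Agent.P.MP_898f40_nt.Newt

/-!
Three blocks for the one-prime transfer: Newton, Gauss, and multiplicativity of the
characteristic polynomial along an invariant subspace.
-/

open Polynomial Module

namespace Pool.Agent.P.MP_898f40_nt.One

variable {K K' V V' : Type*} [Field K] [CharZero K] [Field K'] [CharZero K'] [AddCommGroup V]
  [Module K V] [FiniteDimensional K V] [AddCommGroup V'] [Module K' V'] [FiniteDimensional K' V']

theorem newton (f : Module.End K V) (f' : Module.End K' V')
    (h : ∀ m : ℕ, ∃ τ : ℚ, LinearMap.trace K V (f ^ m) = τ ∧ LinearMap.trace K' V' (f' ^ m) = τ) :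
    ∃ P : Polynomial ℚ, f.charpoly = P.map (algebraMap ℚ K) ∧
      f'.charpoly = P.map (algebraMap ℚ K') := by
  choose t ht using h
  exact ⟨charQ t, (charQ_map f t fun m => (ht m).1).symm, (charQ_map f' t fun m => (ht m).2).symm⟩

theorem gauss (f : Module.End K V) (hf : IsIntegral ℤ f) (Q : Polynomial ℚ) (hQ : Q.Monic)
    (hd : Q.map (algebraMap ℚ K) ∣ f.charpoly) :
    ∃ P : Polynomial ℤ, P.map (algebraMap ℤ ℚ) = Q := by
  obtain ⟨m, hm, hf⟩ := hf
  have hcomp : (algebraMap ℚ K).comp (algebraMap ℤ ℚ) = algebraMap ℤ K := Subsingleton.elim _ _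
  have h0 : aeval f (m.map (algebraMap ℤ K)) = 0 := by
    rw [aeval_map_algebraMap]
    exact hf
  have h1 := hd.trans (charpoly_dvd_pow f _ h0)
  have h2 : Q ∣ (m ^ finrank K V).map (algebraMap ℤ ℚ) := by
    rw [← map_dvd_map' (algebraMap ℚ K), Polynomial.map_map, hcomp, Polynomial.map_pow]
    exact h1
  obtain ⟨P, hP⟩ := IsIntegrallyClosed.eq_map_mul_C_of_dvd (K := ℚ) (hm.pow _) h2
  rw [hQ.leadingCoeff, map_one, mul_one] at hP
  exact ⟨P, hP⟩

omit [CharZero K] in
open Module.Basis in
theorem charpoly_quot (f : Module.End K V) (S : Submodule K V) (hS : S ≤ S.comap f) :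
    f.charpoly = (f.restrict (p := S) (q := S) hS).charpoly * (S.mapQ S f hS).charpoly := by
  let m := Module.Free.ChooseBasisIndex K S
  let bW : Basis m K S := Module.Free.chooseBasis K S
  let n := Module.Free.ChooseBasisIndex K (V ⧸ S)
  let bQ : Basis n K (V ⧸ S) := Module.Free.chooseBasis K (V ⧸ S)
  let b := sumQuot bW bQ
  let A : Matrix m m K := LinearMap.toMatrix bW bW (f.restrict hS)
  let B : Matrix m n K := Matrix.of fun i l ↦
    ((sumQuot bW bQ).repr (f ((sumQuot bW bQ) (Sum.inr l)))) (Sum.inl i)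
  let D : Matrix n n K := LinearMap.toMatrix bQ bQ (S.mapQ S f hS)
  suffices LinearMap.toMatrix b b f = Matrix.fromBlocks A B 0 D by
    rw [← LinearMap.charpoly_toMatrix f b, this, ← LinearMap.charpoly_toMatrix _ bW,
      ← LinearMap.charpoly_toMatrix _ bQ, Matrix.charpoly_fromBlocks_zero₂₁]
  ext u v
  cases u with
  | inl i =>
    cases v with
    | inl k =>
      simp only [b, sumQuot_inl, Matrix.fromBlocks_apply₁₁, A, LinearMap.toMatrix_apply]
      apply sumQuot_repr_inl_of_mem
    | inr l => simp [b, LinearMap.toMatrix_apply, Matrix.fromBlocks_apply₁₂, B]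
  | inr j =>
    cases v with
    | inl k =>
      suffices S.mkQ (f (bW k)) = 0 by simp [LinearMap.toMatrix_apply, b, this]
      rw [← LinearMap.mem_ker, Submodule.ker_mkQ]
      exact hS (Submodule.coe_mem (bW k))
    | inr l =>
      simp only [LinearMap.toMatrix_apply, sumQuot_repr_inr,
        Matrix.fromBlocks_apply₂₂, b, D]
      rw [← sumQuot_inr bW bQ l, S.mapQ_apply]
      simp

end Pool.Agent.P.MP_898f40_nt.One
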