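import Pool.Agent.P.MP_898f40_nt.OneCorr

/-!
Purity: the two forms of weight-monodromy agree, and the Kuenneth projectors are algebraic.
-/

section

open Module LinearMap Polynomial

namespace Pool.Agent.P.MP_898f40_nt.One

variable {K V U : Type*} [Field K] [AddCommGroup V] [Module K V] [AddCommGroup U] [Module K U]

theorem mw_pow {f : End K V} {g : End K U} {π : V →ₗ[K] U} (h : ∀ v, π (f v) = g (π v)) (n : ℕ)
    (v : V) : π ((f ^ n) v) = (g ^ n) (π v) := by
  induction n with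
  | zero => rfl
  | succ n ih => rw [pow_succ', pow_succ', End.mul_apply, End.mul_apply, h, ih]

theorem mw_aeval {f : End K V} {g : End K U} {π : V →ₗ[K] U} (h : ∀ v, π (f v) = g (π v))
    (P : K[X]) (v : V) : π (aeval f P v) = aeval g P (π v) := by
  induction P using Polynomial.induction_on' with
  | add P Q hP hQ => simp only [map_add, LinearMap.add_apply, hP, hQ]
  | monomial n a =>
    simp only [aeval_monomial, End.mul_apply, Module.algebraMap_end_apply, map_smul, mw_pow h]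

theorem mw_restrict {f : End K V} {S : Submodule K V} (hS : ∀ v ∈ S, f v ∈ S) (P : K[X])
    (v : S) : aeval f P v.1 = (aeval (f.restrict hS) P v).1 :=
  (mw_aeval (f := f.restrict hS) (g := f) (π := S.subtype) (fun _ => rfl) P v).symm

theorem mw_ind {f : End K V} {S B : Submodule K V} (hS : ∀ v ∈ S, f v ∈ S)
    (hB : ∀ v ∈ B, f v ∈ B) {P : K[X]} (h : aeval (ind f hS hB) P = 0) :
    ∀ v ∈ S, aeval f P v ∈ B := by
  intro v hv
  have := mw_aeval (f := f.restrict hS) (g := ind f hS hB) (π := Submodule.mkQ _)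
    (fun _ => rfl) P ⟨v, hv⟩
  rw [h, LinearMap.zero_apply, Submodule.mkQ_apply, Submodule.Quotient.mk_eq_zero] at this
  rw [mw_restrict hS P ⟨v, hv⟩]
  exact this

theorem mw_coprime {f : End K V} {B : Submodule K V} (hB : ∀ v ∈ B, f v ∈ B) {P Q : K[X]}
    (h : IsCoprime P Q) {v : V} (h1 : aeval f P v ∈ B) (h2 : aeval f Q v = 0) : v ∈ B := by
  obtain ⟨a, b, hab⟩ := h
  have := LinearMap.congr_fun (congrArg (aeval f) hab) v
  rw [map_add, map_mul, map_mul, map_one, LinearMap.add_apply, End.mul_apply, End.mul_apply, h2,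
    map_zero, add_zero, End.one_apply] at this
  rw [← this, mw_restrict hB a ⟨_, h1⟩]
  exact Subtype.property _

theorem wt_coprime {q : ℕ} (hq : 2 ≤ q) {m m' : ℤ} (hm : m ≠ m') {g g' : ℚ[X]} (_h0 : g ≠ 0)
    (hg : ∀ z : ℂ, aeval z g = 0 → ‖z‖ ^ 2 = (q : ℝ) ^ m)
    (hg' : ∀ z : ℂ, aeval z g' = 0 → ‖z‖ ^ 2 = (q : ℝ) ^ m') : IsCoprime g g' := by
  rw [isCoprime_iff_aeval_ne_zero_of_isAlgClosed ℚ ℂ]
  intro z
  by_contra hc
  push Not at hc
  have h1 : (1 : ℝ) < q := by exact_mod_cast hq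
  exact hm (zpow_right_injective₀ (by linarith) h1.ne' ((hg z hc.1).symm.trans (hg' z hc.2)))

section graded

variable {E : ℤ → Submodule K V} {p : ℤ → End K V}

/-- The filtration attached to the grading. -/
def mwFil (p : ℤ → End K V) (t : ℤ) : Submodule K V := ⨅ a, ⨅ _ : a < -t, ker (p a)

theorem mem_mwFil {t : ℤ} {v : V} : v ∈ mwFil p t ↔ ∀ a < -t, p a v = 0 := by
  simp [mwFil, Submodule.mem_iInf]

theorem mw_comm (hp : ∀ a, IsProj (E a) (p a)) (ho : ∀ a a', a ≠ a' → ∀ v ∈ E a', p a v = 0)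
    (ht : ⨆ a, E a = ⊤) {T : End K V} {c : ℤ} (hT : ∀ a, ∀ v ∈ E a, T v ∈ E (a + c)) (a : ℤ)
    (v : V) : p (a + c) (T v) = T (p a v) := by
  have hv : v ∈ ⨆ a, E a := ht ▸ Submodule.mem_top
  induction hv using Submodule.iSup_induction' with
  | mem a' v hv =>
    rcases eq_or_ne a a' with rfl | h
    · rw [(hp _).map_id _ (hT a v hv), (hp _).map_id _ hv]
    · rw [ho _ _ (by omega) _ (hT a' v hv), ho _ _ h _ hv, map_zero]
  | zero => simp
  | add x y _ _ hx hy => simp only [map_add, hx, hy]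

theorem mw_sum (hp : ∀ a, IsProj (E a) (p a)) (ho : ∀ a a', a ≠ a' → ∀ v ∈ E a', p a v = 0)
    {s : Finset ℤ} (hs : ∀ a ∉ s, E a = ⊥) (ht : ⨆ a, E a = ⊤) (v : V) :
    ∑ a ∈ s, p a v = v := by
  have hv : v ∈ ⨆ a, E a := ht ▸ Submodule.mem_top
  induction hv using Submodule.iSup_induction' with
  | mem a' v hv =>
    rw [Finset.sum_eq_single a' (fun a _ h => ho _ _ h _ hv) fun h => ?_, (hp _).map_id _ hv]
    rw [hs a' h, Submodule.mem_bot] at hv
    rw [hv, map_zero]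
  | zero => simp
  | add x y _ _ hx hy => simp only [map_add, Finset.sum_add_distrib, hx, hy]

theorem mw_pow_mem {N : End K V} (hN : ∀ a, ∀ v ∈ E a, N v ∈ E (a + 2)) (r : ℕ) :
    ∀ a, ∀ v ∈ E a, (N ^ r) v ∈ E (a + 2 * r) := by
  intro a v hv
  induction r with
  | zero => simpa using hv
  | succ r ih =>
    rw [pow_succ', End.mul_apply, show a + 2 * ((r + 1 : ℕ) : ℤ) = a + 2 * r + 2 by push_cast; ring]
    exact hN _ _ ih

theorem mw_monFil (hp : ∀ a, IsProj (E a) (p a)) (ho : ∀ a a', a ≠ a' → ∀ v ∈ E a', p a v = 0)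
    {s : Finset ℤ} (hs : ∀ a ∉ s, E a = ⊥) (ht : ⨆ a, E a = ⊤) {N : End K V}
    (hN : ∀ a, ∀ v ∈ E a, N v ∈ E (a + 2)) :
    IsMonFil N (mwFil p) ↔ ∀ r : ℕ, Set.BijOn (N ^ r) (E (-r)) (E r) := by
  have hc : ∀ (r : ℕ) v, p r ((N ^ r) v) = (N ^ r) (p (-r) v) := fun r v => by
    rw [← mw_comm hp ho ht (mw_pow_mem hN r) (-r) v, show -(r : ℤ) + 2 * r = r by ring]
  have hm : ∀ r : ℕ, ∀ v ∈ E (-r), (N ^ r) v ∈ E r := fun r v hv => by
    have := mw_pow_mem hN r _ v hv
    rwa [show -(r : ℤ) + 2 * r = r by ring] at this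
  have hE : ∀ a, ∀ v ∈ E a, v ∈ mwFil p (-a) := fun a v hv =>
    mem_mwFil.2 fun a' h => ho _ _ (by omega) v hv
  refine ⟨fun h r => ⟨hm r, fun v hv w hw e => ?_, fun x hx => ?_⟩, fun h => ?_⟩
  · have h1 : v - w ∈ E (-r) := sub_mem hv hw
    have h2 := h.inj r (v - w) (by simpa using hE _ _ h1)
      (by rw [map_sub, e, sub_self]; exact zero_mem _)
    rw [← sub_eq_zero, ← (hp _).map_id _ h1]
    exact mem_mwFil.1 h2 _ (by omega)
  · obtain ⟨v, -, h2⟩ := h.surj r x (hE _ _ hx)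
    refine ⟨p (-r) v, (hp _).map_mem v, ?_⟩
    have h3 := mem_mwFil.1 h2 r (by omega)
    rw [map_sub, (hp _).map_id _ hx, hc, sub_eq_zero] at h3
    exact h3.symm
  obtain ⟨b, hb⟩ := s.bddAbove
  obtain ⟨c, hc'⟩ := s.bddBelow
  refine ⟨fun t t' htt v hv => mem_mwFil.2 fun a ha => mem_mwFil.1 hv a (by omega),
    ⟨-b - 1, eq_bot_iff.2 fun v hv => ?_⟩, ⟨-c, eq_top_iff.2 fun v _ => mem_mwFil.2 fun a ha => ?_⟩,
    fun t v hv => mem_mwFil.2 fun a ha => ?_, fun r v hv h1 => mem_mwFil.2 fun a ha => ?_,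
    fun r x hx => ?_⟩
  · rw [Submodule.mem_bot, ← mw_sum hp ho hs ht v]
    exact Finset.sum_eq_zero fun a ha => mem_mwFil.1 hv a (by have := hb ha; omega)
  · have h1 := (hp a).map_mem v
    rwa [hs a fun h => by have := hc' h; omega, Submodule.mem_bot] at h1
  · rw [show a = a - 2 + 2 by ring, mw_comm hp ho ht hN, mem_mwFil.1 hv _ (by omega), map_zero]
  · rcases eq_or_ne a (-r) with rfl | h2
    · refine (h r).injOn ((hp _).map_mem v) (zero_mem _) ?_
      rw [← hc, mem_mwFil.1 h1 _ (by omega), map_zero]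
    · exact mem_mwFil.1 hv a (by omega)
  · obtain ⟨v, hv, e⟩ := (h r).surjOn ((hp r).map_mem x)
    refine ⟨v, by simpa using hE _ _ hv, mem_mwFil.2 fun a ha => ?_⟩
    rw [e, map_sub]
    rcases eq_or_ne a r with rfl | h2
    · rw [(hp _).map_id _ ((hp _).map_mem x), sub_self]
    · rw [mem_mwFil.1 hx a (by omega), ho _ _ h2 _ ((hp _).map_mem x), sub_self]

end graded

variable [CharZero K] [FiniteDimensional K V] [FiniteDimensional K U]

theorem pure_poly {q : ℕ} {m : ℤ} {f : End K V} (h : Pure q m f) :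
    ∃ g : ℚ[X], g ≠ 0 ∧ aeval f (g.map (algebraMap ℚ K)) = 0 ∧
      ∀ z : ℂ, aeval z g = 0 → ‖z‖ ^ 2 = (q : ℝ) ^ m := by
  set L := AlgebraicClosure K
  set R := (f.charpoly.map (algebraMap K L)).roots with hR
  have hr : ∀ μ ∈ R, aeval μ f.charpoly = 0 := fun μ hμ => by
    have := isRoot_of_mem_roots hμ
    rwa [IsRoot, eval_map_algebraMap] at this
  refine ⟨(R.map (minpoly ℚ)).prod, Multiset.prod_ne_zero fun h0 => ?_, ?_, fun z hz => ?_⟩
  · obtain ⟨μ, hμ, e⟩ := Multiset.mem_map.1 h0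
    exact minpoly.ne_zero (h μ (hr μ hμ)).1.isIntegral e
  · refine aeval_eq_zero_of_dvd_aeval_eq_zero ?_ (LinearMap.aeval_self_charpoly f)
    rw [← map_dvd_map' (algebraMap K L), Polynomial.map_map,
      (IsAlgClosed.splits _).eq_prod_roots_of_monic (f.charpoly_monic.map _),
      Polynomial.map_multiset_prod, Multiset.map_map]
    refine Multiset.prod_dvd_prod_of_dvd _ _ fun μ _ => ?_
    rw [dvd_iff_isRoot, Function.comp_apply, ← IsScalarTower.algebraMap_eq, IsRoot,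
      eval_map_algebraMap]
    exact minpoly.aeval ℚ μ
  · rw [map_multiset_prod, Multiset.prod_eq_zero_iff, Multiset.map_map] at hz
    obtain ⟨μ, hμ, e⟩ := Multiset.mem_map.1 hz
    exact (h μ (hr μ hμ)).2 z e

theorem Pure.of_dvd {q : ℕ} {m : ℤ} {f : End K V} {f' : End K U} (h : Pure q m f)
    (hd : f'.charpoly ∣ f.charpoly) : Pure q m f' :=
  fun μ hμ => h μ (aeval_eq_zero_of_dvd_aeval_eq_zero hd hμ)

theorem monWt_iff {q : ℕ} (hq : 2 ≤ q) (m : ℤ) (N F : End K V) (E : ℤ → Submodule K V)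
    (p : ℤ → End K V) (hp : ∀ a, IsProj (E a) (p a))
    (ho : ∀ a a', a ≠ a' → ∀ v ∈ E a', p a v = 0) (s : Finset ℤ) (hs : ∀ a ∉ s, E a = ⊥)
    (ht : ⨆ a, E a = ⊤) (hN : ∀ a, ∀ v ∈ E a, N v ∈ E (a + 2))
    (hF : ∀ a, ∀ v ∈ E a, F v ∈ E a) (hw : ∀ a, Pure q (m - a) (F.restrict (hF a))) :
    MonWt q m N F ↔ ∀ r : ℕ, Set.BijOn (N ^ r) (E (-r)) (E r) := by
  have hc : ∀ a v, p a (F v) = F (p a v) := fun a v => by
    simpa using mw_comm (c := 0) hp ho ht (fun a v hv => by simpa using hF a v hv) a v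
  rw [← mw_monFil hp ho hs ht hN]
  refine ⟨fun ⟨Fil, hM, hS, hP⟩ => ?_, fun h => ?_⟩
  · choose ψ ψ0 ψ1 ψ2 using fun a => pure_poly (hw a)
    choose χ χ0 χ1 χ2 using fun t => pure_poly (hP t)
    have hψ : ∀ a, ∀ v ∈ E a, aeval F ((ψ a).map (algebraMap ℚ K)) v = 0 := fun a v hv => by
      rw [mw_restrict (hF a) _ ⟨v, hv⟩, ψ1]; rfl
    have hχ := fun t => mw_ind (hS t) (hS (t - 1)) (χ1 t)
    have hco : ∀ t a, t ≠ -a →
        IsCoprime ((χ t).map (algebraMap ℚ K)) ((ψ a).map (algebraMap ℚ K)) := fun t a h =>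
      (wt_coprime hq (by omega) (χ0 t) (χ2 t) (ψ2 a)).map (mapRingHom (algebraMap ℚ K))
    obtain ⟨b, hb⟩ := hM.bot
    obtain ⟨c, hc'⟩ := hM.top
    have h1 : ∀ a, ∀ v ∈ E a, v ∈ Fil (-a) := by
      intro a v hv
      have : ∀ n : ℕ, v ∈ Fil (-a + n) → v ∈ Fil (-a) := by
        intro n
        induction n with
        | zero => simp
        | succ n ih =>
          intro h
          refine ih ?_
          rw [show -a + (n : ℤ) = -a + (n + 1 : ℕ) - 1 by push_cast; ring]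
          exact mw_coprime (hS _) (hco _ a (by omega)) (hχ _ v h) (hψ a v hv)
      exact this (c + a).toNat (hM.mono (show c ≤ _ by omega) (hc' ▸ Submodule.mem_top))
    have h2 : ∀ n : ℕ, ∀ t ≤ b + n, ∀ v ∈ Fil t, v ∈ mwFil p t := by
      intro n
      induction n with
      | zero =>
        intro t h v hv
        have := hM.mono (show t ≤ b by omega) hv
        rw [hb, Submodule.mem_bot] at this
        rw [this]; exact zero_mem _
      | succ n ih =>
        intro t h v hv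
        refine mem_mwFil.2 fun a ha => ?_
        have h3 := mem_mwFil.1 (ih (t - 1) (by omega) _ (hχ t v hv)) a (by omega)
        rw [mw_aeval (hc a)] at h3
        exact mw_coprime (B := ⊥) (fun v hv => by rw [(Submodule.mem_bot K).1 hv, map_zero]; rfl)
          (hco t a (by omega)) h3 (hψ a _ ((hp a).map_mem v))
    have e : Fil = mwFil p := by
      funext t
      refine le_antisymm (h2 (t - b).toNat t (by omega)) fun v hv => ?_
      rw [← mw_sum hp ho hs ht v]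
      refine sum_mem fun a _ => ?_
      rcases lt_or_ge a (-t) with h | h
      · rw [mem_mwFil.1 hv a h]; exact zero_mem _
      · exact hM.mono (show -a ≤ t by omega) (h1 a _ ((hp a).map_mem v))
    exact e ▸ hM
  · have hS : ∀ t, ∀ v ∈ mwFil p t, F v ∈ mwFil p t := fun t v hv =>
      mem_mwFil.2 fun a ha => by rw [hc, mem_mwFil.1 hv a ha, map_zero]
    refine ⟨_, h, hS, fun t => ?_⟩
    have hle : E (-t) ≤ mwFil p t := fun v hv => mem_mwFil.2 fun a h => ho _ _ (by omega) v hv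
    have h1 := hw (-t)
    rw [sub_neg_eq_add] at h1
    refine h1.of_dvd (charpoly_dvd' _ _ ((Submodule.mkQ _).comp (Submodule.inclusion hle))
      (fun x => ?_) fun _ => rfl)
    obtain ⟨v, rfl⟩ := Submodule.mkQ_surjective _ x
    refine ⟨⟨p (-t) v, (hp _).map_mem _⟩, (Submodule.Quotient.eq _).2 ?_⟩
    refine mem_mwFil.2 fun a ha => ?_
    change p a (p (-t) v - v) = 0
    rw [map_sub]
    rcases eq_or_ne a (-t) with rfl | h2
    · rw [(hp _).map_id _ ((hp _).map_mem _), sub_self]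
    · rw [mem_mwFil.1 v.2 a (by omega), ho _ _ h2 _ ((hp _).map_mem _), sub_self]

end Pool.Agent.P.MP_898f40_nt.One

end

section

open Module LinearMap Polynomial CategoryTheory
open Pool.Agent.P.MP_638e8a_ag.H58 SmProj

set_option linter.unusedSectionVars false

universe u v v' w w'

namespace Pool.Agent.P.MP_898f40_nt.One

section

variable {K V : Type*} [Field K] [CharZero K] [AddCommGroup V] [Module K V]
  [FiniteDimensional K V] {G : ℤ → ℤ → Submodule K V} (M : Page G) {p : ℤ → ℤ → Module.End K V}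
  {s : Finset ℤ}

theorem Page.monWt_iff (h : Split G p s) {q : ℕ} (hq : 2 ≤ q)
    (hw : ∀ a b, Pure q b (M.F.restrict (M.F_deg a b))) (i : ℤ) :
    MonWt q i (M.HN i) (M.HF i) ↔ M.WM i := by
  have hZ : ∀ a, ∀ v ∈ ker M.d, p a (i - a) v ∈ M.Za i a := fun a v hv =>
    ⟨M.p_ker h _ _ v hv, (h.proj _ _).map_mem v⟩
  have hF : ∀ a, ∀ v ∈ M.Za i a, M.F v ∈ M.Za i a := fun a v hv =>
    ⟨(M.F_cyc i v (M.Za_le i a hv)).1, M.F_deg _ _ v hv.2⟩
  have hE : ∀ a, ∀ x ∈ M.E i a, M.HF i x ∈ M.E i a := fun a x hx => by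
    obtain ⟨v, hv, rfl⟩ := M.mem_E.1 hx
    exact M.mem_E.2 ⟨_, hF a v hv, rfl⟩
  refine One.monWt_iff hq i _ _ (M.E i)
    (fun a => ind (p a (i - a)) (fun v hv => M.Za_le i a (hZ a v hv.1)) (M.p_range h _ _))
    (fun a => ⟨fun x => ?_, fun x hx => ?_⟩) (fun a a' ha x hx => ?_) s (fun a ha => ?_) ?_
    (fun a x hx => ?_) hE fun a => ?_
  · induction x using Submodule.Quotient.induction_on with
    | H v => exact M.mem_E.2 ⟨_, hZ a v v.2.1, rfl⟩
  · obtain ⟨v, hv, rfl⟩ := M.mem_E.1 hx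
    exact congrArg Submodule.Quotient.mk (Subtype.ext ((h.proj _ _).map_id v hv.2))
  · obtain ⟨v, hv, rfl⟩ := M.mem_E.1 hx
    exact congrArg Submodule.Quotient.mk (Subtype.ext (h.orth _ _ _ _ (Or.inl ha) v hv.2))
  · refine eq_bot_iff.2 fun x hx => ?_
    obtain ⟨v, hv, rfl⟩ := M.mem_E.1 hx
    have := hv.2
    rw [h.fin a ha] at this
    exact congrArg Submodule.Quotient.mk (Subtype.ext this)
  · refine eq_top_iff.2 fun x _ => ?_
    induction x using Submodule.Quotient.induction_on with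
    | H v =>
      have : v = ∑ a ∈ s, ⟨p a (i - a) v, M.Za_le i a (hZ a v v.2.1)⟩ := by
        refine Subtype.ext ?_
        rw [Submodule.coe_sum, ← LinearMap.sum_apply, (h.tot i).map_id _ v.2.2]
      rw [this, ← Submodule.mkQ_apply, map_sum]
      exact Submodule.sum_mem _ fun a _ =>
        Submodule.mem_iSup_of_mem a (M.mem_E.2 ⟨_, hZ a v v.2.1, rfl⟩)
  · obtain ⟨v, hv, rfl⟩ := M.mem_E.1 hx
    exact M.mem_E.2 ⟨_, by simpa using M.Npow_Za 1 (a' := a + 2) (by simp) v hv, rfl⟩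
  · refine ((hw a (i - a)).of_dvd (charpoly_dvd (M.F.restrict (hF a)) _
      (Submodule.inclusion inf_le_right) (Submodule.inclusion_injective _) fun _ => rfl)).of_dvd
      (charpoly_dvd' _ _ (((Submodule.mkQ _) ∘ₗ Submodule.inclusion (M.Za_le i a)).codRestrict _
        fun v => M.mem_E.2 ⟨v.1, v.2, rfl⟩) ?_ fun _ => rfl)
    rintro ⟨x, hx⟩
    obtain ⟨v, hv, rfl⟩ := M.mem_E.1 hx
    exact ⟨⟨v, hv⟩, rfl⟩

theorem aeval_dvd_end {f : Module.End K V} {P Q : ℚ[X]}
    (hx : aeval f (P.map (algebraMap ℚ K)) = 0) (h : P ∣ Q) :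
    aeval f (Q.map (algebraMap ℚ K)) = 0 := by
  obtain ⟨H, rfl⟩ := h
  rw [Polynomial.map_mul, map_mul, hx, zero_mul]

theorem kill_of_dvd {f : Module.End K V} {S : Submodule K V} (hS : ∀ v ∈ S, f v ∈ S) {g E : ℚ[X]}
    (hg : aeval (f.restrict hS) (g.map (algebraMap ℚ K)) = 0) (h : g ∣ E) :
    ∀ v ∈ S, aeval f (E.map (algebraMap ℚ K)) v = 0 := fun v hv => by
  rw [mw_restrict hS _ ⟨v, hv⟩, aeval_dvd_end hg h]
  rfl

end

theorem exists_crt {ι : Type*} (s : Finset ι) (g : ι → ℚ[X]) (P : ι → Prop)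
    (h : ∀ i, P i → ∀ j, ¬ P j → IsCoprime (g i) (g j)) :
    ∃ E : ℚ[X], ∀ i ∈ s, (P i → g i ∣ E - 1) ∧ (¬ P i → g i ∣ E) := by
  classical
  obtain ⟨a, b, hab⟩ : IsCoprime (∏ i ∈ s.filter P, g i) (∏ j ∈ s.filter (¬ P ·), g j) :=
    IsCoprime.prod_left fun i hi => IsCoprime.prod_right fun j hj =>
      h i (Finset.mem_filter.1 hi).2 j (Finset.mem_filter.1 hj).2
  refine ⟨b * ∏ j ∈ s.filter (¬ P ·), g j, fun i hi => ⟨fun hP => ?_, fun hP => ?_⟩⟩
  · rw [← hab, sub_add_cancel_right, dvd_neg]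
    exact (Finset.dvd_prod_of_mem g (Finset.mem_filter.2 ⟨hi, hP⟩)).mul_left a
  · exact (Finset.dvd_prod_of_mem g (Finset.mem_filter.2 ⟨hi, hP⟩)).mul_left b

variable {k : Type u} [Field k] {A : Chow k} {K : Type v} [Field K] [CharZero K] {K' : Type v'}
  [Field K'] [CharZero K'] {W : Weil.{u, v, w} A K} {W' : Weil.{u, v', w'} A K'} {n : ℕ}
  {Y : Fin n → SmProj k}

theorem aeval_mem {T : Module.End K (Tot W Y)} {T' : Module.End K' (Tot W' Y)}
    (h : (T, T') ∈ algRing W W' Y) (E : ℚ[X]) :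
    (aeval T (E.map (algebraMap ℚ K)), aeval T' (E.map (algebraMap ℚ K'))) ∈ algRing W W' Y := by
  induction E using Polynomial.induction_on' with
  | add P Q hP hQ =>
    simp only [Polynomial.map_add, map_add]
    exact add_mem hP hQ
  | monomial m a =>
    simp only [map_monomial, aeval_monomial, Algebra.algebraMap_eq_smul_one (A := Module.End _ _)]
    have h1 : (((a : K) • 1, (a : K') • 1) : _ × _) ∈ algRing W W' Y := alg_smul_one a
    have h2 := mul_mem h1 (pow_mem h m)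
    rwa [Prod.pow_mk, Prod.mk_mul_mk] at h2

theorem blk_eq_proj {c t : Fin n → ℤ} (M : Page (grade W Y c t)) (x : Fin n) (j : ℕ)
    {g : ℕ → ℚ[X]} {E : ℚ[X]} (hg : ∀ i : ℕ, aeval (M.F.restrict (M.F_deg (c x) (i + 2 * t x)))
      ((g i).map (algebraMap ℚ K)) = 0)
    (hE : ∀ i ∈ Finset.range (2 * (Y x).dim + 1), (i = j → g i ∣ E - 1) ∧ (i ≠ j → g i ∣ E)) :
    blk (aeval M.F (E.map (algebraMap ℚ K))) x x = W.proj (Y x) j := by
  refine W.deg_ext fun i u hu => ?_
  by_cases hi : i ∈ Finset.range (2 * (Y x).dim + 1)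
  · change aeval M.F (E.map (algebraMap ℚ K)) (Pi.single x u) x = _
    by_cases hij : i = j
    · have := kill_of_dvd _ (hg i) ((hE i hi).1 hij) _ (single_mem_grade c t x hu)
      rw [Polynomial.map_sub, Polynomial.map_one, map_sub, map_one, LinearMap.sub_apply,
        sub_eq_zero] at this
      rw [this, W.proj_of_mem (hij ▸ hu)]
      exact Pi.single_eq_same _ _
    · rw [kill_of_dvd _ (hg i) ((hE i hi).2 hij) _ (single_mem_grade c t x hu),
        W.proj_of_mem_ne hu hij]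
      rfl
  · rw [W.deg_eq_bot _ i (by simpa using hi), Submodule.mem_bot] at hu
    simp [hu]

/-- The argument of Katz and Messing. -/
theorem kunneth_of_pure {c t : Fin n → ℤ} (M : Page (grade W Y c t)) (M' : Page (grade W' Y c t))
    (hF : Alg W W' Y M.F M'.F) {q : ℕ} (hq : 2 ≤ q)
    (hw : ∀ a b, Pure q b (M.F.restrict (M.F_deg a b)))
    (hw' : ∀ a b, Pure q b (M'.F.restrict (M'.F_deg a b))) (x : Fin n) (j : ℕ) :
    ∃ γ, W.Acts γ (W.proj (Y x) j) ∧ W'.Acts γ (W'.proj (Y x) j) := by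
  choose g g0 g1 g2 using fun i : ℕ => pure_poly (hw (c x) (i + 2 * t x))
  choose g' g0' g1' g2' using fun i : ℕ => pure_poly (hw' (c x) (i + 2 * t x))
  have hz : ∀ i : ℕ, ∀ z : ℂ, aeval z (g i * g' i) = 0 →
      ‖z‖ ^ 2 = (q : ℝ) ^ ((i : ℤ) + 2 * t x) := fun i z h => by
    rw [map_mul, mul_eq_zero] at h
    exact h.elim (g2 i z) (g2' i z)
  obtain ⟨E, hE⟩ := exists_crt (Finset.range (2 * (Y x).dim + 1)) (fun i => g i * g' i) (· = j)
    fun i hi i' hi' => wt_coprime hq (by omega) (mul_ne_zero (g0 i) (g0' i)) (hz i) (hz i')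
  rw [← blk_eq_proj M x j (g := fun i => g i * g' i)
      (fun i => aeval_dvd_end (g1 i) (dvd_mul_right _ _)) hE,
    ← blk_eq_proj M' x j (g := fun i => g i * g' i)
      (fun i => aeval_dvd_end (g1' i) (dvd_mul_left _ _)) hE]
  exact alg_iff.1 (aeval_mem (T := M.F) (T' := M'.F) hF E) x x

end Pool.Agent.P.MP_898f40_nt.One

end
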